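import Pool.Agent.Run7.h418.E.Ag

/-!
Piece C1 for the theorem of helper418 on all entire curves: polynomials which vanish on the complex points of the
equations vanish at the generic point.
-/

set_option autoImplicit false

open MvPolynomial

namespace Run7.h177.EP

open Pool.Agent.Y190.OP Pool.Agent.W602.GT Pool.Agent.N155 Run7.h418 Run7.h418.E

/-- the Nullstellensatz for a set of equations -/
theorem nullst {τ : Type} [Finite τ] {S : Set (MvPolynomial τ ℂ)} {G : MvPolynomial τ ℂ}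
    (h : ∀ b : τ → ℂ, (∀ g ∈ S, eval b g = 0) → eval b G = 0) : ∃ N : ℕ, G ^ N ∈ Ideal.span S := by
  have h1 := vanishingIdeal_zeroLocus_eq_radical (K := ℂ) (k := ℂ) (Ideal.span S)
  have h2 : G ∈ vanishingIdeal ℂ (zeroLocus ℂ (Ideal.span S)) := by
    rw [mem_vanishingIdeal_iff]
    intro b hb
    rw [mem_zeroLocus_iff] at hb
    have h3 := h b fun g hg => by
      have := hb g (Ideal.subset_span hg)
      exact (congrFun (MvPolynomial.aeval_eq_eval b) g).symm.trans this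
    exact (congrFun (MvPolynomial.aeval_eq_eval b) G).trans h3
  rw [h1] at h2
  exact h2

theorem nullst_aeval {τ : Type} [Finite τ] {S : Set (MvPolynomial τ ℂ)} {G : MvPolynomial τ ℂ}
    (h : ∀ b : τ → ℂ, (∀ g ∈ S, eval b g = 0) → eval b G = 0) {Ω : Type} [Field Ω] [Algebra ℂ Ω]
    {a : τ → Ω} (ha : ∀ g ∈ S, aeval a g = 0) : aeval a G = 0 := by
  obtain ⟨N, hN⟩ := nullst h
  have h1 : Ideal.span S ≤ RingHom.ker (aeval a : MvPolynomial τ ℂ →ₐ[ℂ] Ω) :=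
    Ideal.span_le.2 fun g hg => ha g hg
  have h2 := h1 hN
  rw [RingHom.mem_ker, map_pow] at h2
  refine (pow_eq_zero_iff (n := N) fun h0 => ?_).1 h2
  rw [h0, pow_zero] at h2
  exact one_ne_zero h2

variable {n : ℕ} {ι κ τ : Type} {F : ι → MvPolynomial (Fin (n + 1)) ℂ} {m : κ → ℕ}
  {σ : κ → (Fin (n + 1) → ℂ) → (Fin (n + 1) → ℂ) → ℂ} {js : τ → κ} {P : τ → Rn (n + 1)}
  {H : τ → MvPolynomial (Fin (n + 1)) ℂ} {c : κ → ℂ}

theorem aeval_inl {Ω : Type} [Field Ω] [Algebra ℂ Ω] (a : Fin (n + 1) ⊕ Fin (n + 1) → Ω)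
    (G : MvPolynomial (Fin (n + 1)) ℂ) :
    aeval a (rename Sum.inl G) = aeval (a ∘ Sum.inl) G := by
  rw [aeval_rename]

theorem ccM_self_inl {Ω : Type} [Field Ω] (k : Fin (n + 1)) {a : Fin (n + 1) ⊕ Fin (n + 1) → Ω}
    (hk : a (Sum.inl k) ≠ 0) : ccM k a (Sum.inl k) = 1 := div_self hk

theorem ccM_self_inr {Ω : Type} [Field Ω] (k : Fin (n + 1)) (a : Fin (n + 1) ⊕ Fin (n + 1) → Ω) :
    ccM k a (Sum.inr k) = 0 := by
  change (a (Sum.inr k) * a (Sum.inl k) - a (Sum.inl k) * a (Sum.inr k)) / a (Sum.inl k) ^ 2 = 0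
  rw [mul_comm, sub_self, zero_div]

/-- the equations -/
def gens (F : ι → MvPolynomial (Fin (n + 1)) ℂ) (js : τ → κ) (P : τ → Rn (n + 1))
    (H : τ → MvPolynomial (Fin (n + 1)) ℂ) (c : κ → ℂ) (k : Fin (n + 1)) : Set (Rn (n + 1)) :=
  Set.range (fun i => rename Sum.inl (F i)) ∪ Set.range (fun i => tanP F i) ∪
    {X (Sum.inl k) - 1} ∪ {X (Sum.inr k)} ∪
    Set.range (fun s => P s - C (c (js s)) * rename Sum.inl (H s))

theorem mem_Ep_of_gens (hcov : Cov F σ js P H) {k : Fin (n + 1)}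
    {b : Fin (n + 1) ⊕ Fin (n + 1) → ℂ} (hb : ∀ g ∈ gens F js P H c k, eval b g = 0) :
    b ∈ Ep F σ c k := by
  have h1 : b (Sum.inl k) = 1 := by
    have := hb (X (Sum.inl k) - 1) (Or.inl (Or.inl (Or.inr rfl)))
    rwa [map_sub, eval_X, map_one, sub_eq_zero] at this
  have h2 : b (Sum.inr k) = 0 := by
    have := hb (X (Sum.inr k)) (Or.inl (Or.inr rfl))
    rwa [eval_X] at this
  have h3 : ∀ i, eval (b ∘ Sum.inl) (F i) = 0 := fun i => by
    have := hb _ (Or.inl (Or.inl (Or.inl (Or.inl ⟨i, rfl⟩))))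
    rwa [eval_inl] at this
  have h4 : Tan F (b ∘ Sum.inl) (b ∘ Sum.inr) := fun i => by
    have := hb _ (Or.inl (Or.inl (Or.inl (Or.inr ⟨i, rfl⟩))))
    rwa [eval_tanP] at this
  have h5 : b ∈ Tg F k := ⟨h1, h2, h3, h4⟩
  refine ⟨h5, fun j => ?_⟩
  obtain ⟨s, rfl, hs⟩ := hcov.cov _ (Tg.cone h5) j
  have h6 := hcov.rep s _ (Tg.cone h5) hs _ h4
  rw [Sum.elim_comp_inl_inr] at h6
  unfold sg
  rw [h6, div_eq_iff hs]
  have := hb _ (Or.inr ⟨s, rfl⟩)
  rw [map_sub, map_mul, eval_C, eval_inl, sub_eq_zero] at this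
  exact this

/-- **C1** -/
theorem c1 : Run7.h418.E.C1 := by
  intro n ι κ τ F m σ js P H c Ω _ _ i0 a d J α h k hk G hG
  refine nullst_aeval (S := gens F js P H c k) (fun b hb => hG b (mem_Ep_of_gens h.cov hb)) ?_
  rintro g ((((⟨i, rfl⟩ | ⟨i, rfl⟩) | hg) | hg) | ⟨s, rfl⟩)
  · change aeval (ccM k a) (rename Sum.inl (F i)) = 0
    rw [aeval_inl]
    exact h.ag.cone k hk i
  · exact h.ag.tan k hk i
  · rw [Set.mem_singleton_iff.1 hg, map_sub, aeval_X, map_one, ccM_self_inl k hk, sub_self]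
  · rw [Set.mem_singleton_iff.1 hg, aeval_X, ccM_self_inr]
  · change aeval (ccM k a) (P s - C (c (js s)) * rename Sum.inl (H s)) = 0
    rw [map_sub, map_mul, aeval_inl, h.ag.val k hk s, aeval_C, sub_self]

end Run7.h177.EP
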