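import Pool.Agent.Run7.h177.EC1

/-!
Piece C2 for the theorem of helper418 on all entire curves: derivations preserve the coordinate rings of the charts.
-/

set_option autoImplicit false

open MvPolynomial

namespace Run7.h177.EP

open Pool.Agent.Y190.OP Pool.Agent.W602.GT Pool.Agent.N155 Run7.h418 Run7.h418.E

variable {n : ℕ} {ι κ τ : Type} {F : ι → MvPolynomial (Fin (n + 1)) ℂ} {m : κ → ℕ}
  {σ : κ → (Fin (n + 1) → ℂ) → (Fin (n + 1) → ℂ) → ℂ} {js : τ → κ} {P : τ → Rn (n + 1)}
  {H : τ → MvPolynomial (Fin (n + 1)) ℂ} {c : κ → ℂ}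

/-- the rows separate vectors at the complex points of the equations -/
theorem rows_inj (hσ : ∀ j, SymForm F (m j) (σ j)) (hm : ∀ j, 0 < m j) (him : Immersive F σ)
    (hcov : Cov F σ js P H) (hc : ∃ j, c j ≠ 0) {k : Fin (n + 1)}
    {b : Fin (n + 1) ⊕ Fin (n + 1) → ℂ} (hb : b ∈ Ep F σ c k) (w : Fin (n + 1) → ℂ)
    (hw : ∀ J, ∑ l, eval b (rw' F P k J l) * w l = 0) : w = 0 := by
  by_contra hw0
  have hT : Tan F (b ∘ Sum.inl) w := by
    intro j
    have h1 := hw (Sum.inl j)
    simp only [rw', Sum.elim_inl, eval_inl] at h1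
    exact h1
  have hwi : w k = 0 := by
    have h1 := hw (Sum.inr (Sum.inl ()))
    simp only [rw', Sum.elim_inl, Sum.elim_inr] at h1
    have h2 : ∀ l, (eval b) (if l = k then (1 : Rn (n + 1)) else 0) * w l =
        if l = k then w l else 0 := by
      intro l
      by_cases hk : l = k
      · rw [if_pos hk, if_pos hk, map_one, one_mul]
      · rw [if_neg hk, if_neg hk, map_zero, zero_mul]
    simpa only [h2, Finset.sum_ite_eq', Finset.mem_univ, if_true] using h1
  have hξ : b ∘ Sum.inr ≠ 0 := by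
    intro h0
    obtain ⟨j, hj⟩ := hc
    apply hj
    rw [← hb.2 j]
    unfold sg
    rw [h0]
    have h1 := (hσ j).deg _ (Tg.cone hb.1) 0 (by intro j; simp) 0
    rw [smul_zero, zero_pow (hm j).ne', zero_mul] at h1
    exact h1
  obtain ⟨j, hj⟩ := him (b ∘ Sum.inl) (Tg.cone hb.1) (b ∘ Sum.inr) w hb.1.2.2.2 hT
    (not_mult hb.1.1 hb.1.2.1 hξ) (not_mult hb.1.1 hwi hw0)
  apply hj
  obtain ⟨s, rfl, hs⟩ := hcov.cov _ (Tg.cone hb.1) j
  have h1 := ds_rep hb.1 hT (hcov.rep s) hs
  unfold ds at h1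
  rw [h1]
  have h2 := hw (Sum.inr (Sum.inr s))
  simp only [rw', Sum.elim_inr] at h2
  rw [h2, zero_div]

/-- vectors which have good products with the rows are good -/
theorem mem_of_rows (hσ : ∀ j, SymForm F (m j) (σ j)) (hm : ∀ j, 0 < m j) (him : Immersive F σ)
    (hcov : Cov F σ js P H) (hc : ∃ j, c j ≠ 0) {k : Fin (n + 1)} {Ω : Type} [Field Ω]
    [Algebra ℂ Ω] (e : Rn (n + 1) →ₐ[ℂ] Ω) (he : ∀ G ∈ Iz (Ep F σ c k), e G = 0)
    (S : Submodule ℂ Ω) (hS : ∀ g, ∀ x ∈ S, e g * x ∈ S) {w : Fin (n + 1) → Ω}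
    (hw : ∀ J, ∑ l, e (rw' F P k J l) * w l ∈ S) (l : Fin (n + 1)) : w l ∈ S := by
  classical
  set 𝔠 : Ideal (Rn (n + 1)) :=
    { carrier := {g | e g * w l ∈ S}
      add_mem' := fun {g g'} hg hg' => by
        change e (g + g') * w l ∈ S
        rw [map_add, add_mul]
        exact S.add_mem hg hg'
      zero_mem' := by
        change e 0 * w l ∈ S
        rw [map_zero, zero_mul]
        exact S.zero_mem
      smul_mem' := fun r g hg => by
        change e (r • g) * w l ∈ S
        rw [smul_eq_mul, map_mul, mul_assoc]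
        exact hS r _ hg } with h𝔠
  suffices hT : 𝔠 = ⊤ by
    have h1 : (1 : Rn (n + 1)) ∈ 𝔠 := by rw [hT]; trivial
    have h2 : e 1 * w l ∈ S := h1
    rwa [map_one, one_mul] at h2
  by_contra hne
  obtain ⟨b, hb⟩ := exists_point hne
  have hbE : b ∈ Ep F σ c k := by
    refine mem_Ep_of hσ fun G hG => hb G ?_
    change e G * w l ∈ S
    rw [he G hG, zero_mul]
    exact S.zero_mem
  obtain ⟨a, ha⟩ := exists_rows (fun J l => eval b (rw' F P k J l))
    (rows_inj hσ hm him hcov hc hbE)
  set A : Matrix (Fin (n + 1)) (Fin (n + 1)) (Rn (n + 1)) :=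
    Matrix.of fun β l => rw' F P k (a β) l with hA
  have hdet : A.det ∈ 𝔠 := by
    change e A.det * w l ∈ S
    have h2 : ((e : Rn (n + 1) →+* Ω).mapMatrix A.adjugate).mulVec
        (((e : Rn (n + 1) →+* Ω).mapMatrix A).mulVec w) = (e : Rn (n + 1) →+* Ω) A.det • w := by
      rw [Matrix.mulVec_mulVec, RingHom.map_adjugate, Matrix.adjugate_mul, ← RingHom.map_det,
        Matrix.smul_mulVec, Matrix.one_mulVec]
    have h3 := congrFun h2 l
    rw [Pi.smul_apply, smul_eq_mul] at h3
    have h4 : e A.det * w l = _ := h3.symm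
    rw [h4]
    change ∑ β, e (A.adjugate l β) * (∑ l', e (A β l') * w l') ∈ S
    refine S.sum_mem fun β _ => ?_
    refine hS (A.adjugate l β) _ ?_
    exact hw (a β)
  apply ha
  have h1 := hb _ hdet
  rw [RingHom.map_det] at h1
  exact h1

theorem pderiv_inl_inl' (k : Fin (n + 1)) (G : MvPolynomial (Fin (n + 1)) ℂ) :
    pderiv (Sum.inl k) (rename (Sum.inl : Fin (n + 1) → Fin (n + 1) ⊕ Fin (n + 1)) G) =
      rename Sum.inl (pderiv k G) := pderiv_inl_inl k G

/-- **C2** -/
theorem c2 : Run7.h418.E.C2 := by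
  classical
  intro hC1 n ι κ τ F m σ js P H c Ω _ _ i0 a d J α h k hk b
  have he : ∀ G ∈ Iz (Ep F σ c k), aeval (ccM k a) G = 0 :=
    hC1 n ι κ τ F m σ js P H c Ω i0 a d J α h k hk
  set e : Rn (n + 1) →ₐ[ℂ] Ω := aeval (ccM k a) with hedef
  set B : Submodule ℂ Ω := Subalgebra.toSubmodule (Algebra.adjoin ℂ (Set.range (ccM k a))) with hB
  have heB : ∀ g, e g ∈ B := by
    intro g
    rw [hB, Subalgebra.mem_toSubmodule, ← aeval_range]
    exact ⟨g, rfl⟩
  have hS : ∀ g, ∀ x ∈ B, e g * x ∈ B := by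
    intro g x hx
    exact (Algebra.adjoin ℂ (Set.range (ccM k a))).mul_mem (heB g) hx
  have hx1 : e (X (Sum.inl k)) = 1 := by
    rw [hedef, aeval_X, ccM_self_inl k hk]
  have hv0 : e (X (Sum.inr k)) = 0 := by
    rw [hedef, aeval_X, ccM_self_inr]
  have hF : ∀ i, e (rename Sum.inl (F i)) = 0 := fun i => by
    rw [hedef, aeval_inl]
    exact h.ag.cone k hk i
  have hunit : ∀ w : Fin (n + 1) → Ω, ∑ l, e (rw' F P k (Sum.inr (Sum.inl ())) l) * w l = w k := by
    intro w
    simp only [rw', Sum.elim_inl, Sum.elim_inr]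
    have h2 : ∀ l, e (if l = k then (1 : Rn (n + 1)) else 0) * w l =
        if l = k then w l else 0 := by
      intro l
      by_cases hk : l = k
      · rw [if_pos hk, if_pos hk, map_one, one_mul]
      · rw [if_neg hk, if_neg hk, map_zero, zero_mul]
    simp only [h2, Finset.sum_ite_eq', Finset.mem_univ, if_true]
  -- the derivatives of the points
  have hw1 : ∀ l, J b (e (X (Sum.inl l))) ∈ B := by
    intro l
    refine mem_of_rows h.sym h.pos h.imm h.cov h.ne e he B hS
      (w := fun l => J b (e (X (Sum.inl l)))) ?_ l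
    rintro (i | u | s)
    · have h2 := chain e (J b) (rename Sum.inl (F i))
      rw [hF, map_zero, Fintype.sum_sum_type] at h2
      simp only [pderiv_inl_inl, pderiv_inr_inl, map_zero, zero_mul, Finset.sum_const_zero,
        add_zero] at h2
      simp only [rw', Sum.elim_inl]
      rw [← h2]
      exact B.zero_mem
    · rw [hunit, hx1, Derivation.map_one_eq_zero]
      exact B.zero_mem
    · simp only [rw', Sum.elim_inr]
      have h1 := h.ag.al k hk s b
      have h3 : ∀ l, e (X (Sum.inl l)) = ccM k a (Sum.inl l) := fun l => by rw [hedef, aeval_X]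
      simp only [h3]
      rw [hedef, h1]
      have h4 := heB (C (α b (js s)) * rename Sum.inl (H s))
      rw [map_mul, hedef, aeval_C, aeval_inl] at h4
      exact h4
  -- the derivatives of the tangent vectors
  have hG : ∀ G : Rn (n + 1), J b (e G) ∈ B →
      ∑ l, e (pderiv (Sum.inr l) G) * J b (e (X (Sum.inr l))) ∈ B := by
    intro G hG
    have h2 := chain e (J b) G
    rw [Fintype.sum_sum_type] at h2
    have h3 : ∑ l, e (pderiv (Sum.inr l) G) * J b (e (X (Sum.inr l))) = J b (e G) -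
        ∑ l, e (pderiv (Sum.inl l) G) * J b (e (X (Sum.inl l))) := by
      rw [h2]
      ring
    rw [h3]
    exact B.sub_mem hG (B.sum_mem fun l _ => hS _ _ (hw1 l))
  have hw2 : ∀ l, J b (e (X (Sum.inr l))) ∈ B := by
    intro l
    refine mem_of_rows h.sym h.pos h.imm h.cov h.ne e he B hS
      (w := fun l => J b (e (X (Sum.inr l)))) ?_ l
    rintro (i | u | s)
    · have h1 := hG (tanP F i) (by
        rw [hedef, h.ag.tan k hk i, map_zero]
        exact B.zero_mem)
      simp only [pderiv_tanP] at h1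
      simp only [rw', Sum.elim_inl]
      exact h1
    · rw [hunit, hv0, map_zero]
      exact B.zero_mem
    · simp only [rw', Sum.elim_inr]
      have h1 := hG (P s - C (c (js s)) * rename Sum.inl (H s)) (by
        have h4 : e (P s - C (c (js s)) * rename Sum.inl (H s)) = 0 := by
          rw [map_sub, map_mul, hedef, aeval_C, aeval_inl, h.ag.val k hk s, sub_self]
        rw [h4, map_zero]
        exact B.zero_mem)
      simp only [map_sub, pderiv_C_mul, pderiv_inr_inl, mul_zero, sub_zero] at h1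
      exact h1
  -- conclusion
  intro g hg
  rw [← aeval_range] at hg
  obtain ⟨G, rfl⟩ := hg
  have h2 := chain e (J b) G
  change J b (e G) ∈ Algebra.adjoin ℂ (Set.range (ccM k a))
  rw [h2]
  have h3 : ∑ l, e (pderiv l G) * J b (e (X l)) ∈ B := by
    refine B.sum_mem fun l _ => hS _ _ ?_
    rcases l with l | l
    · exact hw1 l
    · exact hw2 l
  exact h3

end Run7.h177.EP
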