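import Pool.Agent.Run7.h418.Gt
import Pool.Agent.Run7.h418.Ext

/-!
Fields with frames of derivations which are regular on affine models without common nonconstant functions are not of
general type (abstract form of the argument of helper418).
-/

set_option autoImplicit false

open MvPolynomial FF

namespace Run7.h177.EP

open Pool.Agent.Y190.OP Pool.Agent.W602.GT Pool.Agent.N155 Run7.h418

/-- normal affine models with a frame of vector fields -/
theorem not_general' {K M : Type} [Field K] [Field M] [Algebra ℂ K] [Algebra ℂ M] [Algebra K M]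
    [IsScalarTower ℂ K M] [Algebra.EssFiniteType ℂ K] {w : ℕ} (hw1 : 1 ≤ w)
    (hMw : Algebra.trdeg ℂ M = w) (halg : Algebra.IsAlgebraic K M)
    {v0 : Fin w → Derivation ℂ M M} {z0 : Fin w → M}
    (hdet : (Matrix.of fun s t => v0 s (z0 t) : Matrix (Fin w) (Fin w) M).det ≠ 0)
    {ix : Type} (S : ix → Subalgebra ℂ M) (hfg : ∀ k, (S k).FG)
    (hfrac : ∀ k, ∀ f : M, ∃ a b : M, a ∈ S k ∧ b ∈ S k ∧ b ≠ 0 ∧ f * b = a)
    (hn : ∀ k, ∀ f : M, IsIntegral (S k) f → f ∈ S k)
    (hpres : ∀ k s, ∀ a ∈ S k, v0 s a ∈ S k)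
    (hconst : ∀ g : M, (∀ k, g ∈ S k) → ∃ c : ℂ, g = algebraMap ℂ M c) :
    Algebra.trdeg ℂ K = w ∧ ¬ GeneralType ℂ K w := by
  classical
  have hch : CharZero M := charZero_of_injective_algebraMap (algebraMap ℂ M).injective
  have hw : Algebra.trdeg ℂ K = w := by
    have h1 := trdeg_add_eq ℂ K (A := M)
    rw [trdeg_eq_zero_iff.2 halg, add_zero, hMw] at h1
    exact h1
  refine ⟨hw, ?_⟩
  rintro ⟨-, N, hN, ω, hpl, hreg, D0, hD0, hind⟩
  obtain ⟨z, hz⟩ : ∃ z : Fin w → K, IsTranscendenceBasis ℂ z := by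
    obtain ⟨B, hB⟩ := exists_isTranscendenceBasis ℂ K
    have hcard := hB.cardinalMk_eq_trdeg
    rw [hw] at hcard
    have hfin : Finite B := by
      rw [← Cardinal.lt_aleph0_iff_finite, hcard]
      exact Cardinal.natCast_lt_aleph0
    obtain ⟨m', ⟨e⟩⟩ := Finite.exists_equiv_fin B
    obtain rfl : m' = w := by
      rw [Cardinal.mk_congr e, Cardinal.mk_fin] at hcard
      exact_mod_cast hcard
    exact ⟨_, hB.comp_equiv e.symm⟩
  have hzM : IsTranscendenceBasis ℂ (fun t => algebraMap K M (z t)) := by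
    have h1 : AlgebraicIndependent ℂ (fun t => algebraMap K M (z t)) :=
      hz.1.map' (f := IsScalarTower.toAlgHom ℂ K M) (algebraMap K M).injective
    refine h1.isTranscendenceBasis_of_trdeg_le_of_finite ?_
    rw [hMw, Cardinal.mk_fin]
  have hv2 : (Matrix.of fun s t => v0 s (algebraMap K M (z t)) :
      Matrix (Fin w) (Fin w) M).det ≠ 0 := by
    intro h0
    obtain ⟨x, hx, hx0⟩ := Matrix.exists_vecMul_eq_zero_iff.2 h0
    apply hx
    refine frame_indep hdet (der_zero hzM fun t => ?_)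
    rw [sum_smul_apply]
    exact congrFun hx0 t
  obtain ⟨E, hE⟩ := Pool.Agent.Y191.exists_dual hz.1
  have hexp : ∀ j, ω j D0 = (Matrix.of fun a b => D0 a (z b) : Matrix (Fin w) (Fin w) K).det ^ N *
      ω j E := by
    intro j
    have h1 := hpl j (Matrix.of fun a b => D0 a (z b)) E
    have h2 : (fun a => ∑ b, (Matrix.of fun a b => D0 a (z b) : Matrix (Fin w) (Fin w) K) a b •
        E b) = D0 := by
      funext a
      exact (der_expand hz hE (D0 a)).symm
    rw [h2] at h1
    exact h1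
  set Δ : M := (Matrix.of fun s t => v0 s (algebraMap K M (z t)) :
    Matrix (Fin w) (Fin w) M).det with hΔ
  have hg : ∀ j, ∃ c : ℂ, Δ ^ N * algebraMap K M (ω j E) = algebraMap ℂ M c := by
    intro j
    refine hconst _ fun k => ?_
    exact mem_of_pluri hw hMw hz hE (hpl j) (fun P hP => hreg P hP j) (hfg k) (hfrac k) (hn k)
      fun s => hpres k s
  choose c hc using hg
  have hE0 : ω 0 E ≠ 0 := fun h0 => hD0 (by rw [hexp, h0, mul_zero])
  have hA0 : (Matrix.of fun a b => D0 a (z b) : Matrix (Fin w) (Fin w) K).det ^ N ≠ 0 :=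
    fun h0 => hD0 (by rw [hexp, h0, zero_mul])
  have hΔ0 : Δ ^ N ≠ 0 := pow_ne_zero _ hv2
  have hc0 : algebraMap ℂ M (c 0) ≠ 0 := by
    rw [← hc]
    exact mul_ne_zero hΔ0 ((_root_.map_ne_zero _).2 hE0)
  have hrat : ∀ j : Fin w, ω j.succ D0 / ω 0 D0 = algebraMap ℂ K (c j.succ / c 0) := by
    intro j
    apply (algebraMap K M).injective
    rw [← IsScalarTower.algebraMap_apply ℂ K M, map_div₀ (algebraMap ℂ M), ← hc, ← hc, hexp,
      hexp, mul_div_mul_left _ _ hA0, mul_div_mul_left _ _ hΔ0, map_div₀]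
  have h1 := hind.transcendental ⟨0, hw1⟩
  rw [hrat] at h1
  exact h1 (isAlgebraic_algebraMap _)

end Run7.h177.EP
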