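import Pool.Agent.Run7.h177.EC2
import Pool.Agent.Run7.h177.EC4a

/-!
Piece C4 for the theorem of helper418 on all entire curves: the field of `x` is not of general type.
-/

set_option autoImplicit false
set_option maxHeartbeats 400000

open MvPolynomial

namespace Run7.h177.EP

open Pool.Agent.Y190.OP Pool.Agent.W602.GT Pool.Agent.N155 Run7.h418 Run7.h418.E

section gen

variable {Ω : Type} [Field Ω] [Algebra ℂ Ω]

/-- the restriction of a derivation to a subfield -/
theorem exists_resD {M : Type} [Field M] [Algebra ℂ M] (f : M →ₐ[ℂ] Ω) (J : Derivation ℂ Ω Ω)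
    (h : ∀ x, ∃ y, f y = J (f x)) : ∃ v : Derivation ℂ M M, ∀ x, f (v x) = J (f x) := by
  choose g hg using h
  have hf : Function.Injective f := f.toRingHom.injective
  refine ⟨Derivation.mk' { toFun := g, map_add' := fun x y => hf ?_, map_smul' := fun c x => hf ?_ }
    (fun x y => hf ?_), hg⟩
  · rw [hg, map_add, map_add, map_add, hg, hg]
  · rw [hg, map_smul, Derivation.map_smul, RingHom.id_apply, map_smul, hg]
  · change f (g (x * y)) = f (x • g y + y • g x)
    rw [hg, map_mul, J.leibniz, smul_eq_mul, smul_eq_mul, smul_eq_mul, smul_eq_mul, map_add,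
      map_mul, map_mul, hg, hg]

/-- derivations which preserve a ring preserve its field of fractions -/
theorem pres_field {M : Type} [Field M] [Algebra ℂ M] (f : M →ₐ[ℂ] Ω) {S : Set M}
    (hS : IntermediateField.adjoin ℂ S = ⊤) {J : Derivation ℂ Ω Ω}
    (h : ∀ x ∈ Algebra.adjoin ℂ S, ∃ y, f y = J (f x)) (x : M) : ∃ y, f y = J (f x) := by
  have hx : x ∈ IntermediateField.adjoin ℂ S := by rw [hS]; trivial
  obtain ⟨r, hr, s, hs, rfl⟩ := IntermediateField.mem_adjoin_iff_div.1 hx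
  by_cases hs0 : s = 0
  · rw [hs0, div_zero, map_zero, map_zero]
    exact ⟨0, map_zero _⟩
  · obtain ⟨r', hr'⟩ := h r hr
    obtain ⟨s', hs'⟩ := h s hs
    have hfs : f s ≠ 0 := (_root_.map_ne_zero f).2 hs0
    refine ⟨(r' * s - r * s') / s ^ 2, ?_⟩
    rw [map_div₀, map_sub, map_mul, map_mul, map_pow, hr', hs', map_div₀]
    have h2 : J (f r / f s * f s) = f r / f s * J (f s) + f s * J (f r / f s) := by
      rw [J.leibniz, smul_eq_mul, smul_eq_mul]
    rw [div_mul_cancel₀ _ hfs] at h2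
    field_simp
    field_simp at h2
    linear_combination h2

variable {M : Type} [Field M] [Algebra ℂ M]

/-- the integral closure -/
def ic (B : Subalgebra ℂ M) : Subalgebra ℂ M := (integralClosure B M).restrictScalars ℂ

theorem mem_ic {B : Subalgebra ℂ M} {x : M} : x ∈ ic B ↔ IsIntegral B x := Iff.rfl

theorem le_ic (B : Subalgebra ℂ M) : B ≤ ic B := fun x hx => by
  rw [mem_ic]
  exact isIntegral_algebraMap (R := B) (x := (⟨x, hx⟩ : B))

theorem ic_fg [Algebra.EssFiniteType ℂ M] {B : Subalgebra ℂ M} (hB : B.FG)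
    (hfrac : ∀ f : M, ∃ a b : M, a ∈ B ∧ b ∈ B ∧ b ≠ 0 ∧ f * b = a) : (ic B).FG := by
  refine Pool.Agent.TH126.C8_FG.integralClosure_fg B hB fun f => ?_
  obtain ⟨a, b, ha, hb, hb0, hab⟩ := hfrac f
  refine ⟨Polynomial.C (⟨b, hb⟩ : B) * Polynomial.X - Polynomial.C ⟨a, ha⟩, ?_, ?_⟩
  · intro h0
    have h1 := congrArg (fun p => Polynomial.coeff p 1) h0
    simp only [Polynomial.coeff_sub, Polynomial.coeff_C_mul, Polynomial.coeff_X_one, mul_one,
      Polynomial.coeff_C_succ, sub_zero, Polynomial.coeff_zero] at h1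
    exact hb0 (congrArg Subtype.val h1)
  · rw [map_sub, map_mul, Polynomial.aeval_C, Polynomial.aeval_C, Polynomial.aeval_X]
    change b * f - a = 0
    rw [← hab]
    ring

theorem ic_normal {B : Subalgebra ℂ M} {f : M} (hf : IsIntegral (ic B) f) : f ∈ ic B := by
  have h1 : IsIntegral (integralClosure B M) f := hf
  exact isIntegral_trans (R := B) (A := integralClosure B M) f h1

theorem ic_pres {B : Subalgebra ℂ M} (hB : B.FG)
    (hfrac : ∀ f : M, ∃ a b : M, a ∈ B ∧ b ∈ B ∧ b ≠ 0 ∧ f * b = a) {δ : Derivation ℂ M M}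
    (hδ : ∀ a ∈ B, δ a ∈ B) : ∀ a ∈ ic B, δ a ∈ ic B := fun _ ha =>
  seidenberg hB hfrac hδ ha

end gen

variable {n : ℕ}

/-- going back to the first chart -/
theorem ccM_inv {M : Type} [Field M] {i0 k : Fin (n + 1)} {a : Fin (n + 1) ⊕ Fin (n + 1) → M}
    (h1 : a (Sum.inl i0) = 1) (h2 : a (Sum.inr i0) = 0) (hk : a (Sum.inl k) ≠ 0) :
    ccM i0 (ccM k a) = a := by
  have e1 : ∀ l, ccM k a (Sum.inl l) = a (Sum.inl l) / a (Sum.inl k) := fun l => rfl
  have e2 : ∀ l, ccM k a (Sum.inr l) = (a (Sum.inr l) * a (Sum.inl k) -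
    a (Sum.inl l) * a (Sum.inr k)) / a (Sum.inl k) ^ 2 := fun l => rfl
  funext l
  rcases l with l | l
  · change ccM k a (Sum.inl l) / ccM k a (Sum.inl i0) = a (Sum.inl l)
    rw [e1, e1, h1]
    field_simp
  · change (ccM k a (Sum.inr l) * ccM k a (Sum.inl i0) - ccM k a (Sum.inl l) *
      ccM k a (Sum.inr i0)) / ccM k a (Sum.inl i0) ^ 2 = a (Sum.inr l)
    rw [e2, e2, e1, e1, h1, h2]
    field_simp
    ring

theorem ccM_one {M : Type} [Field M] {i0 : Fin (n + 1)} {a : Fin (n + 1) ⊕ Fin (n + 1) → M}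
    (h1 : a (Sum.inl i0) = 1) (h2 : a (Sum.inr i0) = 0) : ccM i0 a = a := by
  funext l
  rcases l with l | l
  · change a (Sum.inl l) / a (Sum.inl i0) = a (Sum.inl l)
    rw [h1, div_one]
  · change (a (Sum.inr l) * a (Sum.inl i0) - a (Sum.inl l) * a (Sum.inr i0)) /
      a (Sum.inl i0) ^ 2 = a (Sum.inr l)
    rw [h1, h2]
    simp

theorem ccM_mem {M : Type} [Field M] [Algebra ℂ M] {Q : IntermediateField ℂ M} {k : Fin (n + 1)}
    {a : Fin (n + 1) ⊕ Fin (n + 1) → M} (h : ∀ l, a l ∈ Q) (l : Fin (n + 1) ⊕ Fin (n + 1)) :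
    ccM k a l ∈ Q := by
  rcases l with l | l
  · exact div_mem (h _) (h _)
  · exact div_mem (sub_mem (mul_mem (h _) (h _)) (mul_mem (h _) (h _))) (pow_mem (h _) 2)

/-- fractions of the coordinate ring of each chart -/
theorem frac_chart {M : Type} [Field M] [Algebra ℂ M] {i0 k : Fin (n + 1)}
    {a : Fin (n + 1) ⊕ Fin (n + 1) → M} (h1 : a (Sum.inl i0) = 1) (h2 : a (Sum.inr i0) = 0)
    (hk : a (Sum.inl k) ≠ 0) (hgen : IntermediateField.adjoin ℂ (Set.range a) = ⊤) (f : M) :
    ∃ p q : M, p ∈ Algebra.adjoin ℂ (Set.range (ccM k a)) ∧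
      q ∈ Algebra.adjoin ℂ (Set.range (ccM k a)) ∧ q ≠ 0 ∧ f * q = p := by
  have h3 : IntermediateField.adjoin ℂ (Set.range (ccM k a)) = ⊤ := by
    rw [eq_top_iff, ← hgen, IntermediateField.adjoin_le_iff]
    rintro _ ⟨l, rfl⟩
    have h4 := ccM_mem (Q := IntermediateField.adjoin ℂ (Set.range (ccM k a))) (k := i0)
      (a := ccM k a) (fun l => IntermediateField.subset_adjoin ℂ _ ⟨l, rfl⟩) l
    rwa [ccM_inv h1 h2 hk] at h4
  have h4 : f ∈ IntermediateField.adjoin ℂ (Set.range (ccM k a)) := by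
    rw [h3]
    trivial
  obtain ⟨r, hr, s, hs, rfl⟩ := IntermediateField.mem_adjoin_iff_div.1 h4
  by_cases hs0 : s = 0
  · refine ⟨0, 1, zero_mem _, one_mem _, one_ne_zero, ?_⟩
    rw [hs0, div_zero, zero_mul]
  · exact ⟨r, s, hr, hs, hs0, div_mul_cancel₀ _ hs0⟩

theorem fg_adj {M : Type} [Field M] [Algebra ℂ M] {τ : Type} [Finite τ] (y : τ → M) :
    (Algebra.adjoin ℂ (Set.range y)).FG := by
  have := Fintype.ofFinite τ
  refine ⟨(Set.finite_range y).toFinset, ?_⟩
  rw [Set.Finite.coe_toFinset]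

/-- the core of C4 -/
theorem c4_core (hC1 : C1) (hC2 : C2) (hC3 : C3) {n : ℕ} {ι κ τ : Type}
    {F : ι → MvPolynomial (Fin (n + 1)) ℂ} {m : κ → ℕ}
    {σ : κ → (Fin (n + 1) → ℂ) → (Fin (n + 1) → ℂ) → ℂ} {js : τ → κ} {P : τ → Rn (n + 1)}
    {H : τ → MvPolynomial (Fin (n + 1)) ℂ} {c : κ → ℂ} {Ω : Type} [Field Ω] [Algebra ℂ Ω]
    {i0 : Fin (n + 1)} {a : Fin (n + 1) ⊕ Fin (n + 1) → Ω} {d : ℕ} {J : Fin d → Derivation ℂ Ω Ω}
    {α : Fin d → κ → ℂ} (h : Hyp F m σ js P H c i0 a J α) {M : Type} [Field M] [Algebra ℂ M]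
    [Algebra.EssFiniteType ℂ M] (f : M →ₐ[ℂ] Ω) (a' : Fin (n + 1) ⊕ Fin (n + 1) → M)
    (ha' : ∀ l, f (a' l) = a l) (hgen : IntermediateField.adjoin ℂ (Set.range a') = ⊤)
    (htrd : Algebra.trdeg ℂ M = d)
    (hfrm : ∃ z : Fin d → M,
      (Matrix.of fun s t => J s (f (z t)) : Matrix (Fin d) (Fin d) Ω).det ≠ 0)
    {K : Type} [Field K] [Algebra ℂ K] [Algebra K M] [IsScalarTower ℂ K M]
    [Algebra.EssFiniteType ℂ K] (y : Fin (n + 1) → K)
    (hy : ∀ l, algebraMap K M (y l) = a' (Sum.inl l)) :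
    Algebra.trdeg ℂ K = d ∧ ¬ GeneralType ℂ K d := by
  classical
  have hf : Function.Injective f := f.toRingHom.injective
  have h1 : a (Sum.inl i0) = 1 := h.ag.inl0
  have h2 : a (Sum.inr i0) = 0 := h.ag.inr0
  have hi0 : a (Sum.inl i0) ≠ 0 := by rw [h1]; exact one_ne_zero
  have hcc : ∀ k l, f (ccM k a' l) = ccM k a l := by
    intro k l
    rcases l with l | l
    · change f (a' (Sum.inl l) / a' (Sum.inl k)) = a (Sum.inl l) / a (Sum.inl k)
      rw [map_div₀, ha', ha']
    · change f ((a' (Sum.inr l) * a' (Sum.inl k) - a' (Sum.inl l) * a' (Sum.inr k)) /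
        a' (Sum.inl k) ^ 2) = (a (Sum.inr l) * a (Sum.inl k) - a (Sum.inl l) * a (Sum.inr k)) /
        a (Sum.inl k) ^ 2
      rw [map_div₀, map_sub, map_mul, map_mul, map_pow, ha', ha', ha', ha']
  have hae : ∀ (k : Fin (n + 1)) (G : Rn (n + 1)), f (aeval (ccM k a') G) = aeval (ccM k a) G := by
    intro k G
    have h3 := MvPolynomial.comp_aeval_apply (R := ℂ) (ccM k a') f G
    have h4 : (fun l => f (ccM k a' l)) = ccM k a := funext fun l => hcc k l
    rw [h4] at h3
    exact h3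
  have h1' : a' (Sum.inl i0) = 1 := hf (by rw [ha', h1, map_one])
  have h2' : a' (Sum.inr i0) = 0 := hf (by rw [ha', h2, map_zero])
  have hk' : ∀ k, a (Sum.inl k) ≠ 0 → a' (Sum.inl k) ≠ 0 := fun k hk h0 =>
    hk (by rw [← ha', h0, map_zero])
  have hadj : ∀ k, a (Sum.inl k) ≠ 0 → ∀ b, ∀ x ∈ Algebra.adjoin ℂ (Set.range (ccM k a')),
      ∃ y ∈ Algebra.adjoin ℂ (Set.range (ccM k a')), f y = J b (f x) := by
    intro k hk b x hx
    rw [← aeval_range] at hx
    obtain ⟨G, rfl⟩ := hx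
    have h3 := hC2 hC1 n ι κ τ F m σ js P H c Ω i0 a d J α h k hk b (aeval (ccM k a) G)
      (by rw [← aeval_range]; exact ⟨G, rfl⟩)
    rw [← aeval_range] at h3
    obtain ⟨G', hG'⟩ := h3
    refine ⟨aeval (ccM k a') G', by rw [← aeval_range]; exact ⟨G', rfl⟩, ?_⟩
    change f (aeval (ccM k a') G') = J b (f (aeval (ccM k a') G))
    rw [hae, hae]
    exact hG'
  -- the derivations
  have hJ : ∀ b, ∀ x, ∃ y, f y = J b (f x) := by
    intro b
    refine pres_field f hgen fun x hx => ?_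
    have h3 := hadj i0 hi0 b x (by rwa [ccM_one h1' h2'])
    obtain ⟨y, -, hy⟩ := h3
    exact ⟨y, hy⟩
  choose v0 hv0 using fun b => exists_resD f (J b) (hJ b)
  have hpresB : ∀ k, a (Sum.inl k) ≠ 0 → ∀ b, ∀ x ∈ Algebra.adjoin ℂ (Set.range (ccM k a')),
      v0 b x ∈ Algebra.adjoin ℂ (Set.range (ccM k a')) := by
    intro k hk b x hx
    obtain ⟨y, hy, hy'⟩ := hadj k hk b x hx
    have h3 : v0 b x = y := hf (by rw [hv0, hy'])
    rwa [h3]
  obtain ⟨z, hdet⟩ := hfrm
  have hdet' : (Matrix.of fun s t => v0 s (z t) : Matrix (Fin d) (Fin d) M).det ≠ 0 := by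
    intro h0
    apply hdet
    have h3 := congrArg f h0
    rw [AlgHom.map_det, map_zero] at h3
    rw [← h3]
    congr 1
    ext s t
    exact (hv0 s (z t)).symm
  -- derivations which kill the coordinates
  have hx : ∀ v : Derivation ℂ M M, (∀ l, v (a' (Sum.inl l)) = 0) → v = 0 := by
    intro v hv
    set e : Rn (n + 1) →ₐ[ℂ] M := aeval (ccM i0 a') with he
    have hcc0 : ccM i0 a' = a' := ccM_one h1' h2'
    have hIz : ∀ G ∈ Iz (Ep F σ c i0), e G = 0 := by
      intro G hG
      apply hf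
      rw [he, hae, map_zero]
      exact hC1 n ι κ τ F m σ js P H c Ω i0 a d J α h i0 hi0 G hG
    have heX : ∀ l, e (X l) = a' l := fun l => by rw [he, aeval_X, hcc0]
    have hG : ∀ G : Rn (n + 1), e G = 0 → ∑ l, e (pderiv (Sum.inr l) G) * v (a' (Sum.inr l)) = 0 := by
      intro G hG
      have h3 := chain e v G
      rw [hG, map_zero, Fintype.sum_sum_type] at h3
      simp only [heX, hv, mul_zero, Finset.sum_const_zero, zero_add] at h3
      exact h3.symm
    have hr : ∀ l, v (a' (Sum.inr l)) = 0 := by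
      intro l
      have h3 := mem_of_rows h.sym h.pos h.imm h.cov h.ne e hIz (⊥ : Submodule ℂ M)
        (fun g x hx => by
          rw [Submodule.mem_bot] at hx ⊢
          rw [hx, mul_zero]) (w := fun l => v (a' (Sum.inr l))) (by
          intro I
          rw [Submodule.mem_bot]
          rcases I with i | u | s
          · have h4 := hG (tanP F i) (by
              apply hf
              rw [he, hae, map_zero]
              exact h.ag.tan i0 hi0 i)
            simp only [pderiv_tanP] at h4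
            simp only [rw', Sum.elim_inl]
            exact h4
          · simp only [rw', Sum.elim_inl, Sum.elim_inr]
            have h5 : ∀ l, e (if l = i0 then (1 : Rn (n + 1)) else 0) * v (a' (Sum.inr l)) =
                if l = i0 then v (a' (Sum.inr l)) else 0 := by
              intro l
              by_cases hl : l = i0
              · rw [if_pos hl, if_pos hl, map_one, one_mul]
              · rw [if_neg hl, if_neg hl, map_zero, zero_mul]
            simp only [h5, Finset.sum_ite_eq', Finset.mem_univ, if_true]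
            rw [h2', map_zero]
          · have h4 := hG (P s - C (c (js s)) * rename Sum.inl (H s)) (by
              apply hf
              rw [he, hae, map_sub, map_mul, aeval_C, aeval_inl, h.ag.val i0 hi0 s, sub_self,
                map_zero])
            simp only [map_sub, pderiv_C_mul, pderiv_inr_inl, mul_zero, sub_zero] at h4
            simp only [rw', Sum.elim_inr]
            exact h4) l
      exact (Submodule.mem_bot ℂ).1 h3
    refine Derivation.ext fun x => ?_
    have hch : CharZero M := charZero_of_injective_algebraMap (algebraMap ℂ M).injective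
    refine Pool.Agent.Y191.der_alg0 v (S := Set.range a') ?_ ?_
    · rintro _ ⟨l | l, rfl⟩
      · exact hv l
      · exact hr l
    · have h3 : x ∈ IntermediateField.adjoin ℂ (Set.range a') := by
        rw [hgen]
        trivial
      exact isAlgebraic_algebraMap (⟨x, h3⟩ : IntermediateField.adjoin ℂ (Set.range a'))
  have halg : Algebra.IsAlgebraic K M := by
    have hchK : CharZero K := charZero_of_injective_algebraMap (algebraMap ℂ K).injective
    refine ⟨fun t => ?_⟩
    by_contra ht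
    have h3 : AlgebraicIndependent K (fun _ : Fin 1 => t) := by
      rw [algebraicIndependent_unique_type_iff]
      exact ht
    obtain ⟨E, hE⟩ := Pool.Agent.Y191.exists_dual h3
    have h4 : (E 0).restrictScalars ℂ = 0 := by
      apply hx
      intro l
      change E 0 (a' (Sum.inl l)) = 0
      rw [← hy l, Derivation.map_algebraMap]
    have h5 := hE 0 0
    rw [if_pos rfl] at h5
    have h6 : (E 0).restrictScalars ℂ t = 1 := h5
    rw [h4] at h6
    exact zero_ne_one h6
  have hfr : ∀ k, a (Sum.inl k) ≠ 0 → ∀ f : M, ∃ p q : M,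
      p ∈ Algebra.adjoin ℂ (Set.range (ccM k a')) ∧
      q ∈ Algebra.adjoin ℂ (Set.range (ccM k a')) ∧ q ≠ 0 ∧ f * q = p := fun k hk f =>
    frac_chart h1' h2' (hk' k hk) hgen f
  refine not_general' (K := K) (M := M) h.dpos htrd halg hdet'
    (ix := {k : Fin (n + 1) // a (Sum.inl k) ≠ 0})
    (fun k => ic (Algebra.adjoin ℂ (Set.range (ccM (k : Fin (n + 1)) a')))) ?_ ?_ ?_ ?_ ?_
  · exact fun k => ic_fg (fg_adj _) (hfr k k.2)
  · intro k f
    obtain ⟨p, q, hp, hq, hq0, hpq⟩ := hfr k k.2 f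
    exact ⟨p, q, le_ic _ hp, le_ic _ hq, hq0, hpq⟩
  · exact fun k f hf => ic_normal hf
  · exact fun k s => ic_pres (fg_adj _) (hfr k k.2) (hpresB k k.2 s)
  · intro g hg
    obtain ⟨c', hc'⟩ := hC3 hC1 n ι κ τ F m σ js P H c Ω i0 a d J α h (f g) (by
      intro k hk
      have h3 : IsIntegral (Algebra.adjoin ℂ (Set.range (ccM k a'))) g := hg ⟨k, hk⟩
      let φ : Algebra.adjoin ℂ (Set.range (ccM k a')) →ₐ[ℂ]
          Algebra.adjoin ℂ (Set.range (ccM k a)) :=
        (f.comp (Algebra.adjoin ℂ (Set.range (ccM k a'))).val).codRestrict _ (by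
          rintro ⟨x, hx⟩
          rw [← aeval_range] at hx ⊢
          obtain ⟨G, rfl⟩ := hx
          exact ⟨G, (hae k G).symm⟩)
      exact IsIntegral.map_of_comp_eq (φ : _ →+* _) (f : M →+* Ω) (by
        ext x
        rfl) h3)
    exact ⟨c', hf (by rw [hc', AlgHom.commutes])⟩

theorem gen_top {Ω : Type} [Field Ω] [Algebra ℂ Ω] {τ : Type} (a : τ → Ω) :
    IntermediateField.adjoin ℂ (Set.range fun l =>
      (⟨a l, IntermediateField.subset_adjoin ℂ _ ⟨l, rfl⟩⟩ :
        IntermediateField.adjoin ℂ (Set.range a))) = ⊤ := by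
  apply IntermediateField.lift_injective
  rw [IntermediateField.lift_adjoin, IntermediateField.lift_top]
  congr 1
  ext x
  constructor
  · rintro ⟨_, ⟨l, rfl⟩, rfl⟩
    exact ⟨l, rfl⟩
  · rintro ⟨l, rfl⟩
    exact ⟨_, ⟨l, rfl⟩, rfl⟩

/-- **C4** -/
theorem c4 : Run7.h418.E.C4 := by
  intro hC1 hC2 hC3 n ι κ τ F m σ js P H c Ω _ _ i0 a d J α h
  have hKM : IntermediateField.adjoin ℂ (Set.range (a ∘ Sum.inl)) ≤
      IntermediateField.adjoin ℂ (Set.range a) := by
    rw [IntermediateField.adjoin_le_iff]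
    rintro _ ⟨l, rfl⟩
    exact IntermediateField.subset_adjoin ℂ _ ⟨Sum.inl l, rfl⟩
  let _ : Algebra (IntermediateField.adjoin ℂ (Set.range (a ∘ Sum.inl)))
      (IntermediateField.adjoin ℂ (Set.range a)) :=
    (IntermediateField.inclusion hKM).toRingHom.toAlgebra
  have : IsScalarTower ℂ (IntermediateField.adjoin ℂ (Set.range (a ∘ Sum.inl)))
      (IntermediateField.adjoin ℂ (Set.range a)) := IsScalarTower.of_algebraMap_eq fun x => rfl
  have : Algebra.EssFiniteType ℂ (IntermediateField.adjoin ℂ (Set.range (a ∘ Sum.inl))) := by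
    rw [IntermediateField.essFiniteType_iff]
    exact IntermediateField.fg_adjoin_of_finite (Set.finite_range _)
  have : Algebra.EssFiniteType ℂ (IntermediateField.adjoin ℂ (Set.range a)) := by
    rw [IntermediateField.essFiniteType_iff]
    exact IntermediateField.fg_adjoin_of_finite (Set.finite_range _)
  obtain ⟨z, hz, hdet⟩ := h.ag.frame
  exact c4_core hC1 hC2 hC3 h (IntermediateField.adjoin ℂ (Set.range a)).val
    (fun l => ⟨a l, IntermediateField.subset_adjoin ℂ _ ⟨l, rfl⟩⟩) (fun l => rfl) (gen_top a)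
    h.ag.trd ⟨fun t => ⟨z t, hz t⟩, hdet⟩
    (fun l => ⟨a (Sum.inl l), IntermediateField.subset_adjoin ℂ _ ⟨l, rfl⟩⟩) (fun l => rfl)

end Run7.h177.EP
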