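import Pool.Agent.Run7.h177.EP2

/-!
Piece P1: lifts on discs.
-/

set_option autoImplicit false

open Metric Set Filter Topology Real

namespace Run7.h177.EP

open Pool.Agent.Y190.OP Run7.h418

theorem dich {U : Set ℂ} (hU : IsOpen U) (hc : IsPreconnected U) {p : ℂ → Prop}
    (h : ∀ z ∈ U, (∀ᶠ w in 𝓝 z, p w) ∨ ∀ᶠ w in 𝓝[≠] z, ¬ p w) :
    (∀ z ∈ U, p z) ∨ ∀ z ∈ U, ∀ᶠ w in 𝓝[≠] z, ¬ p w := by
  by_contra hcon
  push Not at hcon
  obtain ⟨⟨z1, hz1, hz1'⟩, ⟨z2, hz2, hz2'⟩⟩ := hcon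
  set A : Set ℂ := {z | ∀ᶠ w in 𝓝 z, p w} with hA
  have hAo : IsOpen A := isOpen_setOfPred_eventually_nhds
  set B : Set ℂ := {z | ∀ᶠ w in 𝓝[≠] z, ¬ p w} ∩ U with hB
  have hBo : IsOpen B := by
    rw [isOpen_iff_mem_nhds]
    rintro z ⟨hz, hzU⟩
    have h1 : ∀ᶠ w in 𝓝[≠] z, ¬ p w := hz
    have h2 : ∀ᶠ w in 𝓝[≠] z, w ∈ {z | ∀ᶠ w in 𝓝[≠] z, ¬ p w} := by
      rw [← eventually_eventually_nhdsWithin] at h1
      filter_upwards [h1, self_mem_nhdsWithin] with w hw hwz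
      have h3 : ∀ᶠ v in 𝓝 w, ¬ p v := by
        rwa [IsOpen.nhdsWithin_eq isOpen_compl_singleton hwz] at hw
      exact h3.filter_mono nhdsWithin_le_nhds
    rw [eventually_nhdsWithin_iff] at h2
    filter_upwards [h2, hU.mem_nhds hzU] with w hw hwU
    by_cases hwz : w = z
    · rw [hwz]
      exact ⟨hz, hzU⟩
    · exact ⟨hw hwz, hwU⟩
  obtain ⟨x, hxU, hxA, hxB⟩ := hc A B hAo hBo (fun x hx => by
    rcases h x hx with h1 | h1
    · exact Or.inl h1
    · exact Or.inr ⟨h1, hx⟩) ⟨z2, hz2, (h z2 hz2).resolve_right (by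
      intro h1
      exact hz2' h1)⟩ ⟨z1, hz1, (h z1 hz1).resolve_left (fun h1 => hz1' h1.self_of_nhds), hz1⟩
  have h1 : ∀ᶠ w in 𝓝 x, p w := hxA
  have h2 : ∀ᶠ w in 𝓝[≠] x, ¬ p w := hxB.1
  obtain ⟨w, hw1, hw2⟩ := (h2.and (h1.filter_mono nhdsWithin_le_nhds)).exists
  exact hw1 hw2

theorem p1 : Run7.h418.E.P1 := by
  classical
  intro N ψ R ρ hρR hψ
  rcases le_or_gt ρ 0 with hρ | hρ
  · rw [ball_eq_empty.2 hρ]
    exact ⟨fun _ _ => 0, differentiableOn_empty, fun z hz => absurd hz (notMem_empty z)⟩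
  have hR : 0 < R := hρ.trans hρR
  have h0R : (0 : ℂ) ∈ ball (0 : ℂ) R := mem_ball_self hR
  obtain ⟨i, hi⟩ := PM.exists_diag (hψ.mem_PM h0R)
  -- local lifts
  have hloc : ∀ a : ℂ, ∃ (V : Set ℂ) (F : ℂ → Fin N → ℂ), a ∈ ball (0 : ℂ) R →
      IsOpen V ∧ a ∈ V ∧ DifferentiableOn ℂ F V ∧ ∀ w ∈ V, F w ≠ 0 ∧ ψ w = Phi (F w) := by
    intro a
    by_cases ha : a ∈ ball (0 : ℂ) R
    · obtain ⟨V, F, h1, h2, h3, h4⟩ := hψ a ha
      exact ⟨V, F, fun _ => ⟨h1, h2, h3, h4⟩⟩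
    · exact ⟨∅, 0, fun h => absurd h ha⟩
  choose V F hVF using hloc
  have hFa : ∀ a ∈ ball (0 : ℂ) R, ∀ j, AnalyticAt ℂ (fun w => F a w j) a := by
    intro a ha j
    obtain ⟨h1, h2, h3, -⟩ := hVF a ha
    exact ((differentiableOn_pi.1 h3) j).analyticAt (h1.mem_nhds h2)
  have hz : ∀ a ∈ ball (0 : ℂ) R, ∀ w ∈ V a, (ψ w i i = 0 ↔ F a w i = 0) := by
    intro a ha w hw
    obtain ⟨h1, h2, h3, h4⟩ := hVF a ha
    rw [(h4 w hw).2]
    exact not_iff_not.1 (Phi_diag_ne (h4 w hw).1)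
  -- the zeros are isolated
  have hiso : ∀ z ∈ ball (0 : ℂ) R, ∀ᶠ w in 𝓝[≠] z, ¬ ψ w i i = 0 := by
    refine (dich (p := fun z => ψ z i i = 0) isOpen_ball (convex_ball (0 : ℂ) R).isPreconnected
      fun z hzR => ?_).resolve_left fun h => hi (h 0 h0R)
    obtain ⟨h1, h2, h3, h4⟩ := hVF z hzR
    rcases (hFa z hzR i).eventually_eq_zero_or_eventually_ne_zero with h5 | h5
    · left
      filter_upwards [h5, h1.mem_nhds h2] with w hw hwV
      exact (hz z hzR w hwV).2 hw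
    · right
      filter_upwards [h5, mem_nhdsWithin_of_mem_nhds (h1.mem_nhds h2)] with w hw hwV h0
      exact hw ((hz z hzR w hwV).1 h0)
  set S : Set ℂ := {z | z ∈ closedBall (0 : ℂ) ρ ∧ ψ z i i = 0} with hS
  have hSfin : S.Finite := by
    by_contra hinf
    have hinf' : S.Infinite := hinf
    obtain ⟨x, hxK, hx⟩ := hinf'.exists_accPt_of_subset_isCompact (isCompact_closedBall 0 ρ)
      (fun z hz => hz.1)
    have h1 : ∃ᶠ z in 𝓝[≠] x, ψ z i i = 0 := by
      rw [accPt_iff_frequently] at hx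
      rw [frequently_nhdsWithin_iff]
      exact hx.mono fun z hz => ⟨hz.2.2, hz.1⟩
    exact h1 (hiso x (closedBall_subset_ball hρR hxK))
  -- the orders
  have hord : ∀ a : ℂ, ∃ (μ : ℕ) (u : ℂ → ℂ), a ∈ ball (0 : ℂ) R → AnalyticAt ℂ u a ∧ u a ≠ 0 ∧
      ∀ᶠ z in 𝓝 a, F a z i = (z - a) ^ μ * u z := by
    intro a
    by_cases ha : a ∈ ball (0 : ℂ) R
    · obtain ⟨h1, h2, h3, h4⟩ := hVF a ha
      have hne : ¬ ∀ᶠ z in 𝓝 a, F a z i = 0 := by
        intro h0
        have h5 : ∀ᶠ w in 𝓝[≠] a, F a w i = 0 := h0.filter_mono nhdsWithin_le_nhds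
        obtain ⟨w, hw1, hw2, hw3⟩ := ((hiso a ha).and (h5.and
          (mem_nhdsWithin_of_mem_nhds (h1.mem_nhds h2)))).exists
        exact hw1 ((hz a ha w hw3).2 hw2)
      obtain ⟨μ, u, hu, hu0, he⟩ := (hFa a ha i).exists_eventuallyEq_pow_smul_nonzero_iff.2 hne
      exact ⟨μ, u, fun _ => ⟨hu, hu0, he⟩⟩
    · exact ⟨0, 0, fun h => absurd h ha⟩
  choose μ u hμ using hord
  set q : ℂ → ℂ := fun s => ∏ b ∈ hSfin.toFinset, (s - b) ^ μ b with hq
  have hqd : Differentiable ℂ q := by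
    rw [hq]
    exact Differentiable.fun_finsetProd fun b _ => by fun_prop
  set qa : ℂ → ℂ → ℂ := fun a s => ∏ b ∈ hSfin.toFinset.erase a, (s - b) ^ μ b with hqa
  have hqad : ∀ a, Differentiable ℂ (qa a) := by
    intro a
    rw [hqa]
    exact Differentiable.fun_finsetProd fun b _ => by fun_prop
  have hqq : ∀ a ∈ S, ∀ s, q s = (s - a) ^ μ a * qa a s := by
    intro a ha s
    rw [hq, hqa]
    exact (Finset.mul_prod_erase _ (fun b => (s - b) ^ μ b) (hSfin.mem_toFinset.2 ha)).symm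
  have hq0 : ∀ s, s ∉ S → q s ≠ 0 := by
    intro s hs
    rw [hq]
    refine Finset.prod_ne_zero_iff.2 fun b hb => pow_ne_zero _ (sub_ne_zero.2 ?_)
    rintro rfl
    exact hs (hSfin.mem_toFinset.1 hb)
  have hqa0 : ∀ a, qa a a ≠ 0 := by
    intro a
    rw [hqa]
    refine Finset.prod_ne_zero_iff.2 fun b hb => pow_ne_zero _ (sub_ne_zero.2 ?_)
    rintro rfl
    exact (Finset.mem_erase.1 hb).1 rfl
  have hsubR : ball (0 : ℂ) ρ ⊆ ball 0 R := ball_subset_ball hρR.le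
  set Λ : ℂ → Fin N → ℂ := fun s => if s ∈ S then (qa s s / u s s) • F s s
    else q s • chart i (ψ s) with hΛ
  have hSc : IsOpen Sᶜ := hSfin.isClosed.isOpen_compl
  have hpt : ∀ z ∈ ball (0 : ℂ) ρ, DifferentiableAt ℂ Λ z ∧ Λ z ≠ 0 ∧ ψ z = Phi (Λ z) := by
    intro z hzρ
    have hzR := hsubR hzρ
    by_cases hzS : z ∈ S
    · obtain ⟨h1, h2, h3, h4⟩ := hVF z hzR
      obtain ⟨hu, hu0, hue⟩ := hμ z hzR
      have hev : Λ =ᶠ[𝓝 z] fun w => (qa z w / u z w) • F z w := by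
        have h5 := hiso z hzR
        rw [eventually_nhdsWithin_iff] at h5
        filter_upwards [h5, h1.mem_nhds h2, hue, isOpen_ball.mem_nhds hzρ] with w hw hwV hwu hwρ
        by_cases hwz : w = z
        · rw [hwz, hΛ]
          simp only
          rw [if_pos hzS]
        · have h6 : ψ w i i ≠ 0 := hw hwz
          have h7 : w ∉ S := fun h => h6 h.2
          have h8 : F z w i ≠ 0 := fun h => h6 ((hz z hzR w hwV).2 h)
          rw [hΛ]
          simp only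
          rw [if_neg h7]
          have h9 : chart i (ψ w) = (F z w i)⁻¹ • F z w := by
            funext j
            unfold chart
            rw [(h4 w hwV).2, Phi_ratio (h4 w hwV).1 h8, Pi.smul_apply, smul_eq_mul]
            field_simp
          have h10 : (w - z) ^ μ z ≠ 0 := pow_ne_zero _ (sub_ne_zero.2 hwz)
          have h11 : u z w ≠ 0 := by
            intro h0
            rw [hwu, h0, mul_zero] at h8
            exact h8 rfl
          rw [h9, smul_smul, hqq z hzS w, hwu]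
          congr 1
          field_simp
      have hF : DifferentiableAt ℂ (F z) z := h3.differentiableAt (h1.mem_nhds h2)
      have hval : Λ z = (qa z z / u z z) • F z z := by
        rw [hΛ]
        simp only
        rw [if_pos hzS]
      have hc0 : qa z z / u z z ≠ 0 := div_ne_zero (hqa0 z) hu0
      refine ⟨DifferentiableAt.congr_of_eventuallyEq ?_ hev, ?_, ?_⟩
      · exact (((hqad z z)).div hu.differentiableAt hu0).smul hF
      · rw [hval]
        exact smul_ne_zero hc0 (h4 z h2).1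
      · rw [hval, Phi_smul hc0]
        exact (h4 z h2).2
    · have h6 : ψ z i i ≠ 0 := fun h => hzS ⟨ball_subset_closedBall hzρ, h⟩
      have hev : Λ =ᶠ[𝓝 z] fun w => q w • chart i (ψ w) := by
        filter_upwards [hSc.mem_nhds hzS] with w hw
        rw [hΛ]
        simp only
        rw [if_neg hw]
      have hval : Λ z = q z • chart i (ψ z) := by
        rw [hΛ]
        simp only
        rw [if_neg hzS]
      refine ⟨DifferentiableAt.congr_of_eventuallyEq ?_ hev, ?_, ?_⟩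
      · exact (hqd z).smul (hψ.diff_chart hzR h6)
      · rw [hval]
        exact smul_ne_zero (hq0 z hzS) (PM.chart_ne h6)
      · rw [hval, Phi_smul (hq0 z hzS), PM.Phi_chart (hψ.mem_PM hzR) h6]
  exact ⟨Λ, fun z hz => (hpt z hz).1.differentiableWithinAt, fun z hz => (hpt z hz).2⟩

end Run7.h177.EP
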