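import Pool.Agent.Run7.h418.E.Pcs

/-!
Piece P2: partners on discs.
-/

set_option autoImplicit false

open Metric Set Filter Topology Real

namespace Run7.h177.EP

open Pool.Agent.Y190.OP Run7.h418

/-- holomorphic functions without common zeros on a set -/
def CopU (U : Set ℂ) (g h : ℂ → ℂ) : Prop :=
  ∃ α β : ℂ → ℂ, DifferentiableOn ℂ α U ∧ DifferentiableOn ℂ β U ∧
    ∀ z ∈ U, α z * g z + β z * h z = 1

theorem CopU.mul {U : Set ℂ} {g g' h : ℂ → ℂ} (hg : DifferentiableOn ℂ g U)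
    (hh : DifferentiableOn ℂ h U) (hg' : DifferentiableOn ℂ g' U)
    (h1 : CopU U g h) (h2 : CopU U g' h) : CopU U (fun z => g z * g' z) h := by
  obtain ⟨α, β, hα, hβ, he⟩ := h1
  obtain ⟨α', β', hα', hβ', he'⟩ := h2
  refine ⟨fun z => α z * α' z, fun z => α z * g z * β' z + β z * (α' z * g' z) +
    β z * β' z * h z, hα.mul hα', ?_, fun z hz => ?_⟩
  · exact (((hα.mul hg).mul hβ').add (hβ.mul (hα'.mul hg'))).add ((hβ.mul hβ').mul hh)
  · linear_combination (α z * g z + β z * h z) * he' z hz + he z hz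

theorem CopU.lin {U : Set ℂ} (hU : IsOpen U) {h : ℂ → ℂ} (hh : DifferentiableOn ℂ h U) {a : ℂ}
    (haU : a ∈ U) (ha : h a ≠ 0) : CopU U (fun z => z - a) h := by
  have h1 : DifferentiableOn ℂ (dslope h a) U :=
    (Complex.differentiableOn_dslope (f := h) (c := a) (hU.mem_nhds haU)).2 hh
  refine ⟨fun z => -(dslope h a z / h a), fun _ => (h a)⁻¹,
    (h1.div_const _).neg, differentiableOn_const _, fun z _ => ?_⟩
  have h2 := sub_smul_dslope h a z
  rw [smul_eq_mul] at h2
  field_simp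
  linear_combination -h2

theorem CopU.pow {U : Set ℂ} {g h : ℂ → ℂ} (hg : DifferentiableOn ℂ g U)
    (hh : DifferentiableOn ℂ h U) (h1 : CopU U g h) (n : ℕ) : CopU U (fun z => g z ^ n) h := by
  induction n with
  | zero =>
    exact ⟨fun _ => 1, fun _ => 0, differentiableOn_const _, differentiableOn_const _,
      fun z _ => by simp⟩
  | succ n ih =>
    have := CopU.mul (hg.pow n) hh hg ih h1
    simpa [pow_succ] using this

theorem copU_of_finite {U : Set ℂ} (hU : IsOpen U) (hUc : IsPreconnected U) {h : ℂ → ℂ}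
    (hh : DifferentiableOn ℂ h U) (Z : Finset ℂ) :
    ∀ g : ℂ → ℂ, DifferentiableOn ℂ g U → (∃ z ∈ U, g z ≠ 0) → (∀ z ∈ U, g z = 0 → z ∈ Z) →
      (∀ z ∈ Z, z ∈ U ∧ h z ≠ 0) → CopU U g h := by
  classical
  induction Z using Finset.induction_on with
  | empty =>
    intro g hg _ hgZ _
    refine ⟨fun z => (g z)⁻¹, fun _ => 0, ?_, differentiableOn_const _, fun z hz => ?_⟩
    · exact hg.inv fun z hz h0 => by simpa using hgZ z hz h0
    · have h0 : g z ≠ 0 := fun h0 => by simpa using hgZ z hz h0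
      field_simp
      ring
  | insert a Z haZ ih =>
    intro g hg hg0 hgZ hhZ
    have haU : a ∈ U := (hhZ a (Finset.mem_insert_self _ _)).1
    have hA : AnalyticOnNhd ℂ g U := hg.analyticOnNhd hU
    obtain ⟨p, hp⟩ := hA a haU
    have hp0 : p ≠ 0 := by
      intro h0
      have h1 := hp.locally_zero_iff.2 h0
      obtain ⟨z, hz, hz0⟩ := hg0
      exact hz0 (hA.eqOn_zero_of_preconnected_of_eventuallyEq_zero hUc haU h1 hz)
    set g1 : ℂ → ℂ := (Function.swap dslope a)^[p.order] g with hg1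
    have hg1d : DifferentiableOn ℂ g1 U := by
      have h2 : ∀ n : ℕ, DifferentiableOn ℂ ((Function.swap dslope a)^[n] g) U := by
        intro n
        induction n with
        | zero => exact hg
        | succ n ihn =>
          rw [Function.iterate_succ_apply']
          exact (Complex.differentiableOn_dslope (c := a) (hU.mem_nhds haU)).2 ihn
      exact h2 _
    have hfac : ∀ z, g z = (z - a) ^ p.order * g1 z := fun z => by
      have := hp.eq_pow_order_mul_iterate_dslope z
      rwa [smul_eq_mul] at this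
    have hg1a : g1 a ≠ 0 := hp.iterate_dslope_fslope_ne_zero hp0
    have h3 : CopU U g1 h := by
      refine ih g1 hg1d ⟨a, haU, hg1a⟩ (fun z hz h0 => ?_) fun z hz =>
        hhZ z (Finset.mem_insert_of_mem hz)
      have h4 := hgZ z hz (by rw [hfac, h0, mul_zero])
      rcases Finset.mem_insert.1 h4 with rfl | h4
      · exact absurd h0 hg1a
      · exact h4
    have h4 : CopU U (fun z => (z - a) ^ p.order) h :=
      CopU.pow (by fun_prop) hh (CopU.lin hU hh haU (hhZ a (Finset.mem_insert_self _ _)).2) _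
    have h5 := CopU.mul (by fun_prop) hh hg1d h4 h3
    have h6 : g = fun z => (z - a) ^ p.order * g1 z := funext hfac
    rw [h6]
    exact h5

theorem zeros_finite' {g : ℂ → ℂ} {R ρ : ℝ} (hρR : ρ < R) (hg : DifferentiableOn ℂ g (ball 0 R))
    (h0 : ∃ z ∈ ball (0 : ℂ) R, g z ≠ 0) : {z : ℂ | z ∈ closedBall 0 ρ ∧ g z = 0}.Finite := by
  by_contra hinf
  have hinf' : {z : ℂ | z ∈ closedBall 0 ρ ∧ g z = 0}.Infinite := hinf
  obtain ⟨x, hxK, hx⟩ := hinf'.exists_accPt_of_subset_isCompact (isCompact_closedBall 0 ρ)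
    (fun z hz => hz.1)
  have hxR : x ∈ ball (0 : ℂ) R := closedBall_subset_ball hρR hxK
  have hA : AnalyticOnNhd ℂ g (ball 0 R) := hg.analyticOnNhd isOpen_ball
  have h1 : ∃ᶠ z in 𝓝[≠] x, g z = 0 := by
    rw [accPt_iff_frequently] at hx
    rw [frequently_nhdsWithin_iff]
    exact hx.mono fun z hz => ⟨hz.2.2, hz.1⟩
  have h2 := (hA x hxR).frequently_zero_iff_eventually_zero.1 h1
  obtain ⟨z, hz, hz0⟩ := h0
  exact hz0 (hA.eqOn_zero_of_preconnected_of_eventuallyEq_zero
    (convex_ball (0 : ℂ) R).isPreconnected hxR h2 hz)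

theorem p2 : Run7.h418.E.P2 := by
  intro N R ρ G hρR hG h0
  rcases le_or_gt ρ 0 with hρ | hρ
  · rw [ball_eq_empty.2 hρ]
    exact ⟨fun _ _ => 0, differentiableOn_empty, fun z hz => absurd hz (notMem_empty z)⟩
  have hR : 0 < R := hρ.trans hρR
  have h0R : (0 : ℂ) ∈ ball (0 : ℂ) R := mem_ball_self hR
  have hpd : ∀ l : Fin N → ℂ, DifferentiableOn ℂ (fun z => pair (G z) l) (ball 0 R) := by
    intro l
    unfold pair
    refine DifferentiableOn.fun_sum fun k _ => ?_
    exact (differentiableOn_pi.1 hG k).mul_const _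
  have h1 : ∃ l : Fin N → ℂ, pair (G 0) l ≠ 0 := by
    refine ⟨fun k => (starRingEnd ℂ) (G 0 k), ?_⟩
    have h2 := nsq_ne (h0 0 h0R)
    exact h2
  obtain ⟨l, hl⟩ := h1
  have hZ := zeros_finite' hρR (hpd l) ⟨0, h0R, hl⟩
  have : Finite {z : ℂ | z ∈ closedBall 0 ρ ∧ pair (G z) l = 0} := hZ
  obtain ⟨f, hf⟩ := Module.exists_dual_forall_apply_ne_zero (K := ℂ)
    (fun z : {z : ℂ | z ∈ closedBall 0 ρ ∧ pair (G z) l = 0} => G z)
    (fun z => h0 z (closedBall_subset_ball hρR z.2.1))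
  set l' : Fin N → ℂ := fun k => f (Pi.single k 1) with hl'
  have hfl : ∀ v, f v = pair v l' := by
    intro v
    conv_lhs => rw [← Finset.univ_sum_single v]
    rw [map_sum]
    refine Finset.sum_congr rfl fun k _ => ?_
    have : Pi.single k (v k) = v k • (Pi.single k 1 : Fin N → ℂ) := by
      rw [← Pi.single_smul, smul_eq_mul, mul_one]
    rw [this, map_smul, smul_eq_mul]
  have hsub : ball (0 : ℂ) ρ ⊆ ball 0 R := ball_subset_ball hρR.le
  have hZ' : {z : ℂ | z ∈ ball 0 ρ ∧ pair (G z) l = 0}.Finite :=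
    hZ.subset fun z hz => ⟨ball_subset_closedBall hz.1, hz.2⟩
  obtain ⟨α, β, hα, hβ, he⟩ := copU_of_finite (U := ball 0 ρ) isOpen_ball
    (convex_ball (0 : ℂ) ρ).isPreconnected ((hpd l').mono hsub) hZ'.toFinset
    (fun z => pair (G z) l) ((hpd l).mono hsub) ⟨0, mem_ball_self hρ, hl⟩ (fun z hz hz0 => by
      rw [Set.Finite.mem_toFinset]
      exact ⟨hz, hz0⟩) (fun z hz => by
      rw [Set.Finite.mem_toFinset] at hz
      refine ⟨hz.1, ?_⟩
      rw [← hfl]
      exact hf ⟨z, ball_subset_closedBall hz.1, hz.2⟩)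
  refine ⟨fun z => α z • l + β z • l', ?_, fun z hz => ?_⟩
  · exact (hα.smul_const l).add (hβ.smul_const l')
  · rw [← he z hz]
    unfold pair
    rw [Finset.mul_sum, Finset.mul_sum, ← Finset.sum_add_distrib]
    refine Finset.sum_congr rfl fun k _ => ?_
    simp only [Pi.add_apply, Pi.smul_apply, smul_eq_mul]
    ring

end Run7.h177.EP
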