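import Pool.Agent.Run7.h418.E.Pcs

/-!
Piece P3: homogeneous coordinates of a curve are not all algebraic over the small functions.
-/

set_option autoImplicit false

open Metric Set Filter Topology Real

namespace Run7.h177.EP

open Pool.Agent.Y190.OP Run7.h418 Run7.h418.E

/-- a lower bound for the averages of `log |h|` -/
theorem jensen_low {h : ℂ → ℂ} (hh : Differentiable ℂ h) (h0 : ∃ z, h z ≠ 0) :
    ∃ C : ℝ, 0 ≤ C ∧ ∀ ρ : ℝ, 1 ≤ ρ → (∀ z ∈ sphere (0 : ℂ) ρ, h z ≠ 0) →
      -C ≤ av ρ (fun z => Real.log ‖h z‖) := by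
  obtain ⟨p, hp⟩ := hh.analyticAt 0
  have hp0 : p ≠ 0 := by
    intro h1
    have h2 := hp.locally_zero_iff.2 h1
    obtain ⟨z, hz⟩ := h0
    exact hz (entire_zero hh h2 z)
  set g : ℂ → ℂ := (Function.swap dslope 0)^[p.order] h with hg
  have hgd : Differentiable ℂ g := by
    have h2 : ∀ n : ℕ, Differentiable ℂ ((Function.swap dslope 0)^[n] h) := by
      intro n
      induction n with
      | zero => exact hh
      | succ n ihn =>
        rw [Function.iterate_succ_apply']
        have := (Complex.differentiableOn_dslope (c := 0) univ_mem).2 ihn.differentiableOn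
        exact differentiableOn_univ.1 this
    exact h2 _
  have hfac : ∀ z, h z = z ^ p.order * g z := fun z => by
    have := hp.eq_pow_order_mul_iterate_dslope z
    rwa [smul_eq_mul, sub_zero] at this
  have hg0 : g 0 ≠ 0 := hp.iterate_dslope_fslope_ne_zero hp0
  refine ⟨|Real.log ‖g 0‖|, abs_nonneg _, fun ρ hρ hs => ?_⟩
  have hρ0 : 0 < ρ := by linarith
  have hZ := zeros_finite hgd ⟨0, hg0⟩ ρ
  obtain ⟨k, hk, hk0, hk1, hk2⟩ := exists_major hρ0 hZ.toFinset g hgd ⟨0, hg0⟩
    (fun z hz h0 => by rw [Set.Finite.mem_toFinset]; exact ⟨hz, h0⟩) (fun z hz => by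
      rw [Set.Finite.mem_toFinset] at hz
      refine lt_of_le_of_ne (mem_closedBall_zero_iff.1 hz.1) fun he => ?_
      refine hs z (mem_sphere_zero_iff_norm.2 he) ?_
      rw [hfac, hz.2, mul_zero])
  have hU : IsOpen {z | k z ≠ 0} := isOpen_ne_fun hk.continuous continuous_const
  have h1 : av ρ (fun z => Real.log ‖k z‖) = Real.log ‖k 0‖ :=
    av_log hρ0.le hU (fun z hz => hk0 z hz) hk.differentiableOn fun z hz => hz
  have h2 : Real.log ‖g 0‖ ≤ Real.log ‖k 0‖ :=
    Real.log_le_log (norm_pos_iff.2 hg0) (hk1 0 (mem_closedBall_self hρ0.le))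
  have hgs : ∀ z ∈ sphere (0 : ℂ) ρ, g z ≠ 0 := by
    intro z hz h0
    exact hs z hz (by rw [hfac, h0, mul_zero])
  have h3 : av ρ (fun z => Real.log ‖k z‖) ≤ av ρ (fun z => Real.log ‖h z‖) := by
    refine av_mono hρ0.le ?_ ?_ fun z hz => ?_
    · exact (hk.continuous.norm.continuousOn).log fun z hz =>
        norm_ne_zero_iff.2 (hk0 z (sphere_subset_closedBall hz))
    · exact (hh.continuous.norm.continuousOn).log fun z hz => norm_ne_zero_iff.2 (hs z hz)
    · rw [hk2 z hz, hfac z]
      refine Real.log_le_log (norm_pos_iff.2 (hgs z hz)) ?_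
      rw [norm_mul, norm_pow, mem_sphere_zero_iff_norm.1 hz]
      exact le_mul_of_one_le_left (norm_nonneg _) (one_le_pow₀ hρ)
  have h4 := neg_abs_le (Real.log ‖g 0‖)
  linarith

theorem dense_ne' {q : ℂ → ℂ} (hq : Differentiable ℂ q) (h : ∃ z, q z ≠ 0) : Dense {z | q z ≠ 0} :=
  dense_ne hq h

/-- quotients which are locally bounded are entire -/
theorem exists_quot {f g : ℂ → ℂ} (hf : Differentiable ℂ f) (hg : Differentiable ℂ g)
    (hg0 : ∃ z, g z ≠ 0)
    (hb : ∀ z, ∃ M : ℝ, ∀ᶠ w in 𝓝[≠] z, g w ≠ 0 → ‖f w / g w‖ ≤ M) :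
    ∃ c : ℂ → ℂ, Differentiable ℂ c ∧ ∀ z, f z = g z * c z := by
  have hfM : ∀ z, MeromorphicAt f z := fun z => (hf.analyticAt z).meromorphicAt
  have hgM : ∀ z, MeromorphicAt g z := fun z => (hg.analyticAt z).meromorphicAt
  have hq : MeromorphicOn (f / g) univ := fun z _ => (hfM z).div (hgM z)
  have hgne : ∀ z, ∀ᶠ w in 𝓝[≠] z, g w ≠ 0 := fun z =>
    (meromorphicOrderAt_ne_top_iff_eventually_ne_zero (hgM z)).1 (ord_ne_top hg hg0 z)
  set c : ℂ → ℂ := toMeromorphicNFOn (f / g) univ with hc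
  have hNF : MeromorphicNFOn c univ := meromorphicNFOn_toMeromorphicNFOn _ univ
  have hev : ∀ z, ∀ᶠ w in 𝓝[≠] z, c w = (f / g) w := fun z =>
    (hq.toMeromorphicNFOn_eq_self_on_nhdsNE (mem_univ z)).mono fun w hw => by
      exact hw
  have hca : ∀ z, AnalyticAt ℂ c z := by
    intro z
    rw [← (hNF (mem_univ z)).meromorphicOrderAt_nonneg_iff_analyticAt]
    by_contra hneg
    push Not at hneg
    have h1 := tendsto_cobounded_iff_meromorphicOrderAt_neg (hNF (mem_univ z)).meromorphicAt
    have h2 := h1.2 hneg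
    obtain ⟨M, hM⟩ := hb z
    have h3 : ∀ᶠ w in 𝓝[≠] z, ‖c w‖ ≤ M := by
      filter_upwards [hM, hgne z, hev z] with w h4 h5 h6
      rw [h6, Pi.div_apply]
      exact h4 h5
    have h4 := (tendsto_norm_cobounded_atTop.comp h2).eventually_gt_atTop M
    obtain ⟨w, hw1, hw2⟩ := (h3.and h4).exists
    exact absurd hw1 (not_le.2 hw2)
  have hcd : Differentiable ℂ c := fun z => (hca z).differentiableAt
  refine ⟨c, hcd, fun z => ?_⟩
  have h1 : ∀ᶠ w in 𝓝[≠] z, f w = g w * c w := by
    filter_upwards [hev z, hgne z] with w h2 h3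
    rw [h2, Pi.div_apply, mul_div_cancel₀ _ h3]
  have h2 : Tendsto f (𝓝[≠] z) (𝓝 (f z)) := hf.continuous.continuousAt.tendsto.mono_left
    nhdsWithin_le_nhds
  have h3 : Tendsto (fun w => g w * c w) (𝓝[≠] z) (𝓝 (g z * c z)) :=
    ((hg.continuous.mul hcd.continuous).continuousAt.tendsto).mono_left nhdsWithin_le_nhds
  exact tendsto_nhds_unique h2 (h3.congr' (h1.mono fun w hw => hw.symm))

variable {T : ℝ → ℝ} {r0 : ℝ}

theorem prod_ne_zero' {ι : Type} (s : Finset ι) (P : ι → ℂ → ℂ) (hP : ∀ k, Differentiable ℂ (P k))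
    (h : ∀ k, ∃ z, P k z ≠ 0) : ∃ z, ∏ k ∈ s, P k z ≠ 0 := by
  classical
  have h1 : Dense {z | ∏ k ∈ s, P k z ≠ 0} := by
    induction s using Finset.induction_on with
    | empty => simp
    | insert a s ha ih =>
      have h2 : {z | ∏ k ∈ insert a s, P k z ≠ 0} = {z | P a z ≠ 0} ∩ {z | ∏ k ∈ s, P k z ≠ 0} := by
        ext z
        simp only [Finset.prod_insert ha, mem_ofPred_eq, mem_inter_iff, mul_ne_zero_iff]
      rw [h2]
      refine Dense.inter_of_isOpen_left (dense_ne (hP a) (h a)) ih ?_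
      exact isOpen_ne_fun (hP a).continuous continuous_const
  exact h1.nonempty

/-- the function `c` with `b * x = y * c`, for an algebraic quotient `x / y` -/
theorem exists_coord {hT : Grw T r0} {x y b' : ℂ → ℂ} (hx : Differentiable ℂ x)
    (hy : Differentiable ℂ y) (hy0 : ∃ z, y z ≠ 0) (hb' : b' ∈ Sm hT) {d : ℕ} {P : ℕ → ℂ → ℂ}
    (hP : ∀ i, P i ∈ Sm hT) (hPd : ∃ z, P d z ≠ 0)
    (he : ∀ z, ∑ i ∈ Finset.range (d + 1), P i z * x z ^ i * y z ^ (d - i) = 0) :
    ∃ c : ℂ → ℂ, c ∈ Sm hT ∧ ∀ z, P d z * b' z * x z = y z * c z := by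
  have hd : 0 < d := by
    rcases Nat.eq_zero_or_pos d with rfl | h
    · obtain ⟨z, hz⟩ := hPd
      have := he z
      simp at this
      exact absurd this hz
    · exact h
  -- the coefficients
  set B : Fin d → ℂ → ℂ := fun i z => -(P i z * P d z ^ (d - 1 - i) * b' z ^ (d - i)) with hB
  have hBS : ∀ i, B i ∈ Sm hT := fun i => by
    have h1 := (Sm hT).neg_mem ((Sm hT).mul_mem ((Sm hT).mul_mem (hP i)
      ((Sm hT).pow_mem (hP d) (d - 1 - i))) ((Sm hT).pow_mem hb' (d - i)))
    exact h1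
  have hPdd : ∀ i, Differentiable ℂ (P i) := fun i => (hP i).1
  have hf : Differentiable ℂ fun z => P d z * b' z * x z := ((hPdd d).mul hb'.1).mul hx
  have key : ∀ z c, P d z * b' z * x z = y z * c → y z ≠ 0 →
      c ^ d = ∑ i : Fin d, B i z * c ^ (i : ℕ) := by
    intro z c hc hyz
    have h1 := he z
    rw [Finset.sum_range_succ, Nat.sub_self, pow_zero, mul_one] at h1
    have hyd : y z ^ d ≠ 0 := pow_ne_zero _ hyz
    apply mul_left_cancel₀ hyd
    rw [← mul_pow, ← hc, Finset.mul_sum]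
    have h2 : ∀ i : Fin d, y z ^ d * (B i z * c ^ (i : ℕ)) =
        -(P d z ^ (d - 1) * b' z ^ d) * (P i z * x z ^ (i : ℕ) * y z ^ (d - i)) := by
      intro i
      have hi : (i : ℕ) < d := i.2
      have e1 : y z ^ d = y z ^ (i : ℕ) * y z ^ (d - i) := by
        rw [← pow_add]
        congr 1
        omega
      have e2 : P d z ^ (d - 1) = P d z ^ (d - 1 - i) * P d z ^ (i : ℕ) := by
        rw [← pow_add]
        congr 1
        omega
      have e3 : b' z ^ d = b' z ^ (d - i) * b' z ^ (i : ℕ) := by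
        rw [← pow_add]
        congr 1
        omega
      have e4 : y z ^ (i : ℕ) * c ^ (i : ℕ) = P d z ^ (i : ℕ) * b' z ^ (i : ℕ) * x z ^ (i : ℕ) := by
        rw [← mul_pow, ← hc, mul_pow, mul_pow]
      calc y z ^ d * (B i z * c ^ (i : ℕ)) =
            -(P i z * P d z ^ (d - 1 - i) * b' z ^ (d - i)) * y z ^ (d - i) *
              (y z ^ (i : ℕ) * c ^ (i : ℕ)) := by
            rw [e1, hB]
            ring
        _ = _ := by
            rw [e4, e2, e3]
            ring
    rw [Finset.sum_congr rfl fun i _ => h2 i, ← Finset.mul_sum]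
    have h3 : ∑ i : Fin d, P i z * x z ^ (i : ℕ) * y z ^ (d - (i : ℕ)) =
        ∑ i ∈ Finset.range d, P i z * x z ^ i * y z ^ (d - i) :=
      (Finset.sum_range (f := fun i => P i z * x z ^ i * y z ^ (d - i))).symm
    rw [h3, eq_neg_of_add_eq_zero_left h1]
    have e5 : P d z ^ d = P d z ^ (d - 1) * P d z := by
      rw [← pow_succ]
      congr 1
      omega
    rw [mul_pow, mul_pow, e5]
    ring
  obtain ⟨c, hc, hce⟩ := exists_quot hf hy hy0 (fun z => by
    have hcont : Continuous fun w => 1 + ∑ i : Fin d, ‖B i w‖ := by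
      refine continuous_const.add (continuous_finsetSum _ fun i _ => ?_)
      exact ((hBS i).1.continuous).norm
    refine ⟨1 + ∑ i : Fin d, ‖B i z‖ + 1, ?_⟩
    have h1 : ∀ᶠ w in 𝓝[≠] z, 1 + ∑ i : Fin d, ‖B i w‖ < 1 + ∑ i : Fin d, ‖B i z‖ + 1 :=
      (hcont.continuousAt.eventually_lt_const (lt_add_one _)).filter_mono nhdsWithin_le_nhds
    filter_upwards [h1] with w hw hyw
    have h2 := key w (P d w * b' w * x w / y w) (by field_simp) hyw
    exact (root_le h2).trans hw.le)
  refine ⟨c, sm_integral hc hBS fun z => ?_, hce⟩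
  -- the equation for all `z`
  have h1 : Continuous fun z => c z ^ d := hc.continuous.pow _
  have h2 : Continuous fun z => ∑ i : Fin d, B i z * c z ^ (i : ℕ) :=
    continuous_finsetSum _ fun i _ => ((hBS i).1.continuous).mul (hc.continuous.pow _)
  exact congrFun (Continuous.ext_on (dense_ne hy hy0) h1 h2 fun z hz => key z (c z) (hce z) hz) z

theorem p3 : Run7.h418.E.P3 := by
  classical
  intro T r0 hT N G C i0 hG hG0 hTG hi0 hal
  choose d P hP hPd he using hal
  have hGk : ∀ k, Differentiable ℂ fun z => G z k := fun k => differentiable_pi.1 hG k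
  -- the common denominator
  set b : ℂ → ℂ := fun z => ∏ k, P k (d k) z with hb
  set b' : Fin N → ℂ → ℂ := fun k z => ∏ j ∈ Finset.univ.erase k, P j (d j) z with hb'
  have hbb : ∀ k z, b z = P k (d k) z * b' k z := fun k z =>
    (Finset.mul_prod_erase Finset.univ (fun j => P j (d j) z) (Finset.mem_univ k)).symm
  have hprod : ∀ s : Finset (Fin N), (fun z => ∏ j ∈ s, P j (d j) z) ∈ Sm hT := by
    intro s
    have h1 : (∏ j ∈ s, P j (d j)) ∈ Sm hT := (Sm hT).prod_mem fun j _ => hP j (d j)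
    have h2 : (∏ j ∈ s, P j (d j)) = fun z => ∏ j ∈ s, P j (d j) z := by
      funext z
      rw [Finset.prod_apply]
    rwa [h2] at h1
  have hbS : b ∈ Sm hT := hprod _
  have hb0 : ∃ z, b z ≠ 0 := prod_ne_zero' _ _ (fun k => (hP k (d k)).1) hPd
  have hc : ∀ k, ∃ c : ℂ → ℂ, c ∈ Sm hT ∧ ∀ z, b z * G z k = G z i0 * c z := by
    intro k
    obtain ⟨c, h1, h2⟩ := exists_coord (hT := hT) (hGk k) (hGk i0) hi0 (hprod (Finset.univ.erase k))
      (hP k) (hPd k) (he k)
    refine ⟨c, h1, fun z => ?_⟩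
    rw [hbb k z]
    exact h2 z
  choose c hcS hce using hc
  have hcd : ∀ k, Differentiable ℂ (c k) := fun k => (hcS k).1
  have hci0 : ∀ z, c i0 z = b z := by
    have h1 : ∀ z ∈ {z | G z i0 ≠ 0}, c i0 z = b z := by
      intro z hz
      have h2 := hce i0 z
      rw [mul_comm (b z)] at h2
      exact (mul_left_cancel₀ hz h2).symm
    exact fun z => congrFun (Continuous.ext_on (dense_ne (hGk i0) hi0) (hcd i0).continuous
      hbS.1.continuous h1) z
  have hcross : ∀ j k z, c j z * G z k = c k z * G z j := by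
    intro j k
    have h1 : ∀ z ∈ {z | G z i0 ≠ 0}, c j z * G z k = c k z * G z j := by
      intro z hz
      apply mul_left_cancel₀ hz
      rw [← mul_assoc, ← mul_assoc, ← hce j z, ← hce k z]
      ring
    exact fun z => congrFun (Continuous.ext_on (dense_ne (hGk i0) hi0)
      ((hcd j).continuous.mul (hGk k).continuous) ((hcd k).continuous.mul (hGk j).continuous) h1) z
  set e : ℂ → ℂ := fun z => (∑ k, c k z * (starRingEnd ℂ) (G z k)) / nsq (G z) with hedef
  have hce' : ∀ j z, c j z = e z * G z j := by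
    intro j z
    have h1 := nsq_ne (hG0 z)
    rw [hedef]
    simp only
    rw [div_mul_eq_mul_div, eq_div_iff h1, Finset.sum_mul]
    unfold nsq
    rw [Finset.mul_sum]
    refine Finset.sum_congr rfl fun k _ => ?_
    linear_combination (starRingEnd ℂ) (G z k) * hcross j k z
  have hed : Differentiable ℂ e := by
    intro z
    obtain ⟨k, hk⟩ := Function.ne_iff.1 (hG0 z)
    rw [Pi.zero_apply] at hk
    have h1 : e =ᶠ[𝓝 z] fun w => c k w / G w k := by
      filter_upwards [(hGk k).continuous.continuousAt.eventually_ne hk] with w hw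
      rw [hce' k w, mul_div_cancel_right₀ _ hw]
    exact ((hcd k z).div (hGk k z) hk).congr_of_eventuallyEq h1
  have he0 : ∃ z, e z ≠ 0 := by
    obtain ⟨z, hz⟩ := hb0
    refine ⟨z, fun h0 => hz ?_⟩
    rw [← hci0, hce', h0, zero_mul]
  -- bounds
  choose M hM using fun k => (hcS k).2
  obtain ⟨L, hL⟩ := Finite.exists_le M
  obtain ⟨C1, hC1, hC1'⟩ := jensen_low hed he0
  obtain ⟨C2, hC2, hC2'⟩ := jensen_low (hGk i0) hi0
  set L' : ℕ := L + 1 with hL'
  have hcb : ∀ r ∈ Rd T r0, ∀ z : ℂ, ‖z‖ ≤ r + 1 / (L' * T r) → ∀ k,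
      ‖c k z‖ ≤ L' * T r ^ L' := by
    intro r hr z hz k
    exact ((hM k).mono hT ((hL k).trans (Nat.le_succ L))).2 r hr z hz
  have hmain : ∀ r ∈ Rd T r0, T r ≤ |C| * (1 + (Real.log (N * (L' * T r ^ L') ^ 2) + 2 * C1) +
      2 * C2 + 2 * C2) := by
    intro r hr
    have hT1 := hT.one_le hr.1
    have hr1 : 1 ≤ r := hT.one.trans hr.1
    have hL0 : (0 : ℝ) < L' := by
      rw [hL']
      positivity
    have hlt : r < r + 1 / (L' * T r) := by
      have : 0 < 1 / (L' * T r) := by positivity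
      linarith
    obtain ⟨w0, hw0⟩ := prod_ne_zero' (Finset.univ : Finset (Fin 2))
      (fun k => if k = 0 then e else fun z => G z i0) (fun k => by
        split_ifs
        · exact hed
        · exact hGk i0) (fun k => by
        split_ifs
        · exact he0
        · exact hi0)
    have hprodd : Differentiable ℂ fun z => e z * G z i0 := hed.mul (hGk i0)
    obtain ⟨ρ, hρ1, hρ2, hρs⟩ := exists_radius hprodd ⟨w0, by
      simpa [Fin.prod_univ_two] using hw0⟩ hlt
    have hρ1' : 1 ≤ ρ := hr1.trans hρ1.le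
    have hρ0 : 0 ≤ ρ := by linarith
    have hes : ∀ z ∈ sphere (0 : ℂ) ρ, e z ≠ 0 := fun z hz => left_ne_zero_of_mul (hρs z hz)
    have hGs : ∀ z ∈ sphere (0 : ℂ) ρ, G z i0 ≠ 0 := fun z hz => right_ne_zero_of_mul (hρs z hz)
    have h1 := hC1' ρ hρ1' hes
    have h2 := hC2' ρ hρ1' hGs
    have hlgc : ContinuousOn (fun z => lg (G z)) (sphere 0 ρ) := fun z _ =>
      ((continuousAt_lg (hG0 z)).comp (f := G) hG.continuous.continuousAt).continuousWithinAt
    have hle : ContinuousOn (fun z => Real.log ‖e z‖) (sphere 0 ρ) :=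
      (hed.continuous.norm.continuousOn).log fun z hz => norm_ne_zero_iff.2 (hes z hz)
    have hlG : ContinuousOn (fun z => Real.log ‖G z i0‖) (sphere 0 ρ) :=
      ((hGk i0).continuous.norm.continuousOn).log fun z hz => norm_ne_zero_iff.2 (hGs z hz)
    have hup : av ρ (fun z => lg (G z)) ≤ Real.log (N * (L' * T r ^ L') ^ 2) + 2 * C1 := by
      have h3 : av ρ (fun z => lg (G z)) ≤
          av ρ (fun z => Real.log (N * (L' * T r ^ L') ^ 2) - 2 * Real.log ‖e z‖) := by
        refine av_mono hρ0 hlgc (continuousOn_const.sub (continuousOn_const.mul hle))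
          fun z hz => ?_
        have h4 : lg (e z • G z) = 2 * Real.log ‖e z‖ + lg (G z) := lg_smul (hes z hz) (hG0 z)
        have h5 : lg (e z • G z) ≤ Real.log (N * (L' * T r ^ L') ^ 2) := by
          unfold lg
          refine Real.log_le_log (Run7.h418.sq_pos (smul_ne_zero (hes z hz) (hG0 z))) ?_
          unfold Run7.h418.sq
          have h6 : ∀ k, ‖(e z • G z) k‖ ^ 2 ≤ (L' * T r ^ L') ^ 2 := by
            intro k
            rw [Pi.smul_apply, smul_eq_mul, ← hce' k z]
            have h7 := hcb r hr z (by rw [mem_sphere_zero_iff_norm.1 hz]; exact hρ2.le) k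
            gcongr
          refine (Finset.sum_le_sum fun k _ => h6 k).trans ?_
          simp
        linarith
      have h6 := av_sub (r := ρ) hρ0 (f := fun _ => Real.log (N * (L' * T r ^ L') ^ 2))
        (g := fun z => 2 * Real.log ‖e z‖) continuousOn_const (continuousOn_const.mul hle)
      rw [av_const, av_mul] at h6
      linarith
    have hlow : -(2 * C2) ≤ av ρ (fun z => lg (G z)) := by
      have h3 : av ρ (fun z => 2 * Real.log ‖G z i0‖) ≤ av ρ (fun z => lg (G z)) := by
        refine av_mono hρ0 (continuousOn_const.mul hlG) hlgc fun z hz => ?_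
        have h4 : 2 * Real.log ‖G z i0‖ = Real.log (‖G z i0‖ ^ 2) := by
          rw [Real.log_pow]
          norm_num
        rw [h4]
        unfold lg Run7.h418.sq
        refine Real.log_le_log (by have := norm_pos_iff.2 (hGs z hz); positivity) ?_
        exact Finset.single_le_sum (f := fun l => ‖G z l‖ ^ 2) (fun _ _ => by positivity)
          (Finset.mem_univ i0)
      rw [av_mul] at h3
      linarith
    have h3 := hTG ρ (hr.1.trans hρ1.le)
    have h4 := hT.mono r ρ hr.1 hρ1.le
    set A := av ρ (fun z => lg (G z)) with hA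
    set X := Real.log (N * (L' * T r ^ L') ^ 2) + 2 * C1 with hX
    have hX0 : -(2 * C2) ≤ X := hlow.trans hup
    have h5 : C * (1 + A) ≤ |C| * (1 + X + 2 * C2 + 2 * C2) := by
      refine (le_abs_self _).trans ?_
      rw [abs_mul]
      refine mul_le_mul_of_nonneg_left ?_ (abs_nonneg _)
      rw [abs_le]
      constructor <;> linarith
    exact h4.trans (h3.trans h5)
  -- the contradiction
  have hN1 : (1 : ℝ) ≤ N := by
    have : 0 < N := lt_of_le_of_lt (Nat.zero_le _) i0.2
    exact_mod_cast this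
  have hL1 : (1 : ℝ) ≤ L' := by
    rw [hL']
    push_cast
    have : (0 : ℝ) ≤ L := Nat.cast_nonneg _
    linarith
  set a : ℝ := |C| * (1 + Real.log N + 2 * Real.log L' + 2 * C1 + 4 * C2) with ha
  set b2 : ℝ := |C| * (4 * L') with hb2
  have ha0 : 0 ≤ a := by
    have := Real.log_nonneg hN1
    have := Real.log_nonneg hL1
    positivity
  have hb20 : 0 ≤ b2 := by positivity
  obtain ⟨r, hr, hra⟩ := hT.borel ((a + b2) ^ 2 + 1)
  have hT1 := hT.one_le hr.1
  have hTr := hT.ge r hr.1
  have h1 := hmain r hr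
  have h2 : Real.log (N * (L' * T r ^ L') ^ 2) =
      Real.log N + 2 * Real.log L' + 2 * (L' * Real.log (T r)) := by
    rw [Real.log_mul (by positivity) (by positivity), Real.log_pow, Real.log_mul (by positivity)
      (by positivity), Real.log_pow]
    push_cast
    ring
  set y := Real.sqrt (T r) with hy
  have hy2 : y ^ 2 = T r := Real.sq_sqrt (by linarith)
  have hy1 : 1 ≤ y := by
    rw [hy]
    exact Real.one_le_sqrt.2 hT1
  have h3 : Real.log (T r) ≤ 2 * y := by
    rw [← hy2, Real.log_pow]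
    have := Real.log_le_sub_one_of_pos (by linarith : 0 < y)
    push_cast
    linarith
  have h4 : T r ≤ a + b2 * y := by
    refine h1.trans ?_
    rw [h2]
    have h5 : (L' : ℝ) * Real.log (T r) ≤ L' * (2 * y) :=
      mul_le_mul_of_nonneg_left h3 (by linarith)
    have h6 : |C| * (L' * Real.log (T r)) ≤ |C| * (L' * (2 * y)) :=
      mul_le_mul_of_nonneg_left h5 (abs_nonneg _)
    rw [ha, hb2]
    nlinarith [h6]
  have h5 : y ≤ a + b2 := by
    have h6 : y * y ≤ (a + b2) * y := by
      have : y * y = T r := by rw [← hy2]; ring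
      rw [this]
      nlinarith
    exact le_of_mul_le_mul_right h6 (by linarith)
  have h6 : T r ≤ (a + b2) ^ 2 := by
    rw [← hy2]
    gcongr
  linarith

end Run7.h177.EP
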